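import Mathlib

set_option autoImplicit false

open Set Filter Topology MeasureTheory

namespace Pool.Agent.Lib.MP_1755e3_an.Full

/-- A filter of large subsets of the line: the common properties of the conull filter and of the
residual filter that are used below. -/
structure Nice (F : Filter ℝ) : Prop where
  ci : CountableInterFilter F
  neBot : F.NeBot
  add : ∀ t : ℝ, Tendsto (fun x : ℝ => x + t) F F
  mul : ∀ c : ℝ, c ≠ 0 → Tendsto (fun x : ℝ => c * x) F F
  trans : ∀ A B : Set ℝ, MeasurableSet A → MeasurableSet B → (∃ᶠ x in F, x ∈ A) →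
    (∃ᶠ x in F, x ∈ B) → ∃ t : ℝ, ∃ᶠ x in F, x ∈ A ∧ x + t ∈ B
  st : ∀ A : Set ℝ, MeasurableSet A → (∃ᶠ x in F, x ∈ A) →
    ∃ δ : ℝ, 0 < δ ∧ ∀ t : ℝ, |t| < δ → ∃ᶠ x in F, x ∈ A ∧ x + t ∈ A
  exp1 : Tendsto Real.exp F F
  exp2 : ∀ s : Set ℝ, (∀ᶠ x in F, Real.exp x ∈ s) → ∀ᶠ t in F, 0 < t → t ∈ s

/-- Preimages of Borel sets are Borel modulo `F`. -/
def EM (F : Filter ℝ) (f : ℝ → ℝ) : Prop :=
  ∀ U : Set ℝ, MeasurableSet U → ∃ E : Set ℝ, MeasurableSet E ∧ ∀ᶠ x in F, (f x ∈ U ↔ x ∈ E)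

section

variable {F : Filter ℝ} (hF : Nice F)
include hF

/-- the measurable space of the sets which are Borel modulo `F` -/
@[reducible] def Nice.ms : MeasurableSpace ℝ :=
  @eventuallyMeasurableSpace ℝ inferInstance F hF.ci

theorem Nice.em_iff {f : ℝ → ℝ} : EM F f ↔ @Measurable _ _ hF.ms _ f := by
  constructor
  · intro h U hU
    obtain ⟨E, hE, h1⟩ := h U hU
    exact ⟨E, hE, Filter.eventuallyEq_set.2 h1⟩
  · intro h U hU
    obtain ⟨E, hE, h1⟩ := h hU
    exact ⟨E, hE, Filter.eventuallyEq_set.1 h1⟩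

theorem Nice.em_of_open {f : ℝ → ℝ}
    (h : ∀ U : Set ℝ, IsOpen U → @MeasurableSet _ hF.ms (f ⁻¹' U)) : EM F f := by
  rw [hF.em_iff]
  exact @measurable_of_isOpen _ _ _ _ _ hF.ms _ h

theorem Nice.em_comp {f g : ℝ → ℝ} (hf : EM F f) (hg : Measurable g) (ht : Tendsto g F F) :
    EM F (fun x => f (g x)) := by
  intro U hU
  obtain ⟨E, hE, h1⟩ := hf U hU
  exact ⟨g ⁻¹' E, hg hE, ht.eventually h1⟩

theorem Nice.em_left {f g : ℝ → ℝ} (hf : EM F f) (hg : Measurable g) :
    EM F (fun x => g (f x)) := by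
  intro U hU
  exact hf _ (hg hU)

theorem Nice.em_sub {f g : ℝ → ℝ} (hf : EM F f) (hg : EM F g) :
    EM F (fun x => f x - g x) := by
  rw [hF.em_iff] at *
  exact Measurable.sub (m := hF.ms) hf hg

theorem Nice.em_mul {f g : ℝ → ℝ} (hf : EM F f) (hg : EM F g) :
    EM F (fun x => f x * g x) := by
  rw [hF.em_iff] at *
  exact Measurable.mul (m := hF.ms) hf hg

theorem Nice.em_measurable {g : ℝ → ℝ} (hg : Measurable g) : EM F g :=
  fun U hU => ⟨g ⁻¹' U, hg hU, Eventually.of_forall fun _ => Iff.rfl⟩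

/-- Ergodicity of dense sets of translations. -/
theorem Nice.erg {E : Set ℝ} (hE : MeasurableSet E) {U : Set ℝ} (hU : Dense U)
    (h : ∀ u ∈ U, ∀ᶠ x in F, (x + u ∈ E ↔ x ∈ E)) :
    (∀ᶠ x in F, x ∈ E) ∨ (∀ᶠ x in F, x ∉ E) := by
  by_contra hcon
  push Not at hcon
  obtain ⟨h1, h2⟩ := hcon
  have h1' : ∃ᶠ x in F, x ∈ Eᶜ := h1
  have h2' : ∃ᶠ x in F, x ∈ E := by simpa using h2
  obtain ⟨t, ht⟩ := hF.trans E Eᶜ hE hE.compl h2' h1'
  have hm : MeasurableSet (E ∩ (fun x => x + t) ⁻¹' Eᶜ) :=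
    hE.inter (hE.compl.preimage (measurable_id.add_const t))
  obtain ⟨δ, hδ, hst⟩ := hF.st _ hm ht
  obtain ⟨u, hu, hut⟩ : ∃ u ∈ U, |u - t| < δ := by
    obtain ⟨u, hu⟩ := hU.exists_dist_lt t hδ
    exact ⟨u, hu.1, by rw [← Real.dist_eq, dist_comm]; exact hu.2⟩
  have h3 := (hst (u - t) hut).and_eventually (h u hu)
  obtain ⟨x, ⟨⟨hx1, hx2⟩, ⟨hx3, hx4⟩⟩, hx5⟩ := h3.exists
  have : x + (u - t) + t = x + u := by ring
  simp only [mem_preimage, this] at hx4
  exact hx4 (hx5.2 hx1)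

/-- A measurable function invariant under a dense set of translations is almost constant. -/
theorem Nice.const {H : ℝ → ℝ} (hH : EM F H) {U : Set ℝ} (hU : Dense U)
    (h : ∀ u ∈ U, ∀ᶠ x in F, H (x + u) = H x) : ∃ k : ℝ, ∀ᶠ x in F, H x = k := by
  have := hF.ci
  refine Filter.exists_eventuallyEq_const_of_forall_separating (l := F) (f := H)
    (fun U : Set ℝ => MeasurableSet U) fun V hV => ?_
  obtain ⟨E, hE, h1⟩ := hH V hV
  have h2 : ∀ u ∈ U, ∀ᶠ x in F, (x + u ∈ E ↔ x ∈ E) := by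
    intro u hu
    filter_upwards [h u hu, h1, (hF.add u).eventually h1] with x hx1 hx2 hx3
    rw [← hx2, ← hx3, hx1]
  rcases hF.erg hE hU h2 with h3 | h3
  · left
    filter_upwards [h1, h3] with x hx1 hx2
    exact hx1.2 hx2
  · right
    filter_upwards [h1, h3] with x hx1 hx2
    exact fun hx => hx2 (hx1.1 hx)

/-- Lemma M: a measurable function whose increments along a dense set of translations are
constants is almost affine. -/
theorem Nice.affine {L : ℝ → ℝ} (hL : EM F L) {U : Set ℝ} (hU : Dense U) {α : ℝ → ℝ}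
    (h : ∀ u ∈ U, ∀ᶠ x in F, L (x + u) = L x + α u) :
    ∃ κ a : ℝ, ∀ᶠ x in F, L x = κ * x + a := by
  have hne := hF.neBot
  have hci := hF.ci
  -- stage 1
  have s1 : ∀ s : ℝ, ∃ β : ℝ, ∀ᶠ x in F, L (x + s) - L x = β := by
    intro s
    refine hF.const (H := fun x => L (x + s) - L x)
      (hF.em_sub (hF.em_comp hL (measurable_id.add_const s) (hF.add s)) hL) hU ?_
    intro u hu
    filter_upwards [h u hu, (hF.add s).eventually (h u hu)] with x hx1 hx2
    have : x + u + s = x + s + u := by ring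
    rw [this, hx1, hx2]
    ring
  choose β hβ using s1
  -- stage 2
  have s2 : ∀ s t : ℝ, β (s + t) = β s + β t := by
    intro s t
    obtain ⟨x, hx1, hx2, hx3⟩ :=
      ((hβ (s + t)).and ((hβ s).and ((hF.add s).eventually (hβ t)))).exists
    have : x + (s + t) = x + s + t := by ring
    rw [this] at hx1
    linarith
  -- stage 3
  obtain ⟨N, hN⟩ : ∃ N : ℕ, ∃ᶠ x in F, |L x| ≤ N := by
    by_contra hcon
    push Not at hcon
    have h1 : ∀ᶠ x in F, ∀ N : ℕ, ¬ |L x| ≤ N := by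
      rw [eventually_countable_forall]
      intro N
      filter_upwards [hcon N] with x hx
      exact not_le.2 hx
    obtain ⟨x, hx⟩ := h1.exists
    obtain ⟨n, hn⟩ := exists_nat_ge (|L x|)
    exact hx n hn
  obtain ⟨E, hE, hE1⟩ := (hF.em_left hL (g := fun y => |y|) measurable_norm) (Iic (N : ℝ))
    measurableSet_Iic
  have hE2 : ∃ᶠ x in F, x ∈ E := (hN.and_eventually hE1).mono fun x hx => hx.2.1 hx.1
  obtain ⟨δ, hδ, hst⟩ := hF.st E hE hE2
  have s3 : ∀ t : ℝ, |t| < δ → |β t| ≤ 2 * N := by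
    intro t ht
    obtain ⟨x, ⟨hx1, hx2⟩, hx3, hx4, hx5⟩ := ((hst t ht).and_eventually
      ((hE1.and (((hF.add t).eventually hE1).and (hβ t))))).exists
    have e1 : |L x| ≤ N := hx3.2 hx1
    have e2 : |L (x + t)| ≤ N := hx4.2 hx2
    rw [← hx5]
    calc |L (x + t) - L x| ≤ |L (x + t)| + |L x| := abs_sub _ _
      _ ≤ _ := by linarith
  -- stage 4
  let B : ℝ →+ ℝ := AddMonoidHom.mk' β s2
  have hB : ∀ t, B t = β t := fun t => rfl
  have hcont : Continuous B := by
    refine continuous_of_continuousAt_zero B ?_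
    rw [Metric.continuousAt_iff]
    intro ε hε
    obtain ⟨n, hn⟩ := exists_nat_gt ((2 * N + 1) / ε)
    have hn0 : (0 : ℝ) < n := lt_of_le_of_lt (by positivity) hn
    refine ⟨δ / n, by positivity, fun {x} hx => ?_⟩
    rw [Real.dist_eq, sub_zero] at hx
    rw [map_zero, Real.dist_eq, sub_zero]
    have h1 : |(n : ℝ) * x| < δ := by
      rw [abs_mul, Nat.abs_cast]
      calc (n : ℝ) * |x| < n * (δ / n) := by gcongr
        _ = δ := by field_simp
    have h2 := s3 _ h1
    have h3 : β ((n : ℝ) * x) = n * β x := by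
      have := map_nsmul B n x
      rw [nsmul_eq_mul, nsmul_eq_mul] at this
      exact this
    rw [h3, abs_mul, Nat.abs_cast] at h2
    rw [hB]
    rw [div_lt_iff₀ hε] at hn
    have h4 : (n : ℝ) * |β x| < n * ε := by linarith
    exact lt_of_mul_lt_mul_left h4 hn0.le
  have s4 : ∀ t : ℝ, β t = β 1 * t := by
    intro t
    have := map_real_smul B hcont t 1
    rw [smul_eq_mul, smul_eq_mul, mul_one] at this
    rw [← hB, this, hB]
    ring
  -- stage 5
  obtain ⟨a, ha⟩ := hF.const (H := fun x => L x - β 1 * x)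
    (hF.em_sub hL (hF.em_measurable (measurable_id.const_mul (β 1)))) (U := univ) dense_univ (by
      intro u _
      filter_upwards [hβ u] with x hx
      rw [s4] at hx
      linear_combination hx)
  refine ⟨β 1, a, ?_⟩
  filter_upwards [ha] with x hx
  linarith

end

end Pool.Agent.Lib.MP_1755e3_an.Full
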