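import Pool.Agent.Lib.MP_1755e3_an.Full.Select
import Pool.Agent.Lib.MP_1755e3_an.Full.Filter
import Pool.Agent.Lib.MP_1755e3_an.Coords

set_option autoImplicit false

open Set Filter Topology

namespace Pool.Agent.Lib.MP_1755e3_an.Full

/-- The affine map with linear part `(a, b; c, d)` and translation part `(u, v)` is bijective and
preserves the graph of `f`. -/
def Sym (f : ℝ → ℝ) (a b c d u v : ℝ) : Prop :=
  a * d - b * c ≠ 0 ∧ ∀ x y : ℝ, (c * x + d * y + v = f (a * x + b * y + u) ↔ y = f x)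

theorem Sym.mul {f : ℝ → ℝ} {a b c d u v a' b' c' d' u' v' : ℝ} (h : Sym f a b c d u v)
    (h' : Sym f a' b' c' d' u' v') :
    Sym f (a * a' + b * c') (a * b' + b * d') (c * a' + d * c') (c * b' + d * d')
      (a * u' + b * v' + u) (c * u' + d * v' + v) := by
  refine ⟨?_, fun x y => ?_⟩
  · have : (a * a' + b * c') * (c * b' + d * d') - (a * b' + b * d') * (c * a' + d * c') =
        (a * d - b * c) * (a' * d' - b' * c') := by ring
    rw [this]
    exact mul_ne_zero h.1 h'.1
  · rw [← h'.2 x y, ← h.2 (a' * x + b' * y + u') (c' * x + d' * y + v')]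
    have e1 : (c * a' + d * c') * x + (c * b' + d * d') * y + (c * u' + d * v' + v) =
        c * (a' * x + b' * y + u') + d * (c' * x + d' * y + v') + v := by ring
    have e2 : (a * a' + b * c') * x + (a * b' + b * d') * y + (a * u' + b * v' + u) =
        a * (a' * x + b' * y + u') + b * (c' * x + d' * y + v') + u := by ring
    rw [e1, e2]

/-- coordinates of the preimage of a point -/
theorem Sym.surj {f : ℝ → ℝ} {a b c d u v : ℝ} (h : Sym f a b c d u v) (x y : ℝ) :
    ∃ x₀ y₀ : ℝ, x = a * x₀ + b * y₀ + u ∧ y = c * x₀ + d * y₀ + v := by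
  have hne := h.1
  obtain ⟨D, hD⟩ : ∃ D, D = a * d - b * c := ⟨_, rfl⟩
  rw [← hD] at hne
  refine ⟨(d * (x - u) - b * (y - v)) / D, (-c * (x - u) + a * (y - v)) / D, ?_, ?_⟩
  · field_simp
    linear_combination (x - u) * hD
  · field_simp
    linear_combination (y - v) * hD

theorem Sym.inv {f : ℝ → ℝ} {a b c d u v : ℝ} (h : Sym f a b c d u v) :
    Sym f (d / (a * d - b * c)) (-b / (a * d - b * c)) (-c / (a * d - b * c))
      (a / (a * d - b * c)) (-(d * u - b * v) / (a * d - b * c))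
      (-(a * v - c * u) / (a * d - b * c)) := by
  have hne := h.1
  refine ⟨?_, fun x y => ?_⟩
  · have : d / (a * d - b * c) * (a / (a * d - b * c)) -
        -b / (a * d - b * c) * (-c / (a * d - b * c)) = 1 / (a * d - b * c) := by
      field_simp
    rw [this]
    exact one_div_ne_zero hne
  · obtain ⟨x₀, y₀, hx, hy⟩ := h.surj x y
    obtain ⟨D, hD⟩ : ∃ D, D = a * d - b * c := ⟨_, rfl⟩
    rw [← hD] at hne ⊢
    have e1 : -c / D * x + a / D * y + -(a * v - c * u) / D = y₀ := by
      rw [hx, hy]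
      field_simp
      linear_combination -y₀ * hD
    have e2 : d / D * x + -b / D * y + -(d * u - b * v) / D = x₀ := by
      rw [hx, hy]
      field_simp
      linear_combination -x₀ * hD
    rw [e1, e2, hx, hy, h.2 x₀ y₀]

/-- conjugates of translations -/
theorem Sym.conj_trans {f : ℝ → ℝ} {a b c d u v s t : ℝ} (h : Sym f a b c d u v)
    (h' : Sym f 1 0 0 1 s t) : Sym f 1 0 0 1 (a * s + b * t) (c * s + d * t) := by
  refine ⟨by norm_num, fun x y => ?_⟩
  obtain ⟨x₀, y₀, hx, hy⟩ := h.surj x y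
  have h1 := h.2 x₀ y₀
  have h2 := h.2 (x₀ + s) (y₀ + t)
  have h3 := h'.2 x₀ y₀
  have e1 : 0 * x + 1 * y + (c * s + d * t) = c * (x₀ + s) + d * (y₀ + t) + v := by
    rw [hy]
    ring
  have e2 : 1 * x + 0 * y + (a * s + b * t) = a * (x₀ + s) + b * (y₀ + t) + u := by
    rw [hx]
    ring
  have e3 : 0 * x₀ + 1 * y₀ + t = y₀ + t := by ring
  have e4 : 1 * x₀ + 0 * y₀ + s = x₀ + s := by ring
  rw [e3, e4] at h3
  rw [e1, e2, h2, h3, ← h1, ← hx, ← hy]

theorem Sym.same_lin {f : ℝ → ℝ} {a b c d u v u' v' : ℝ} (h : Sym f a b c d u v)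
    (h' : Sym f a b c d u' v') : Sym f 1 0 0 1 (u - u') (v - v') := by
  refine ⟨by norm_num, fun x y => ?_⟩
  obtain ⟨x₀, y₀, hx, hy⟩ := h'.surj x y
  have e1 : 0 * x + 1 * y + (v - v') = c * x₀ + d * y₀ + v := by
    rw [hy]
    ring
  have e2 : 1 * x + 0 * y + (u - u') = a * x₀ + b * y₀ + u := by
    rw [hx]
    ring
  rw [e1, e2, h.2, ← h'.2 x₀ y₀, ← hx, ← hy]

theorem Sym.trans_eq {f : ℝ → ℝ} {s t : ℝ} (h : Sym f 1 0 0 1 s t) (x : ℝ) :
    f (x + s) = f x + t := by
  have := (h.2 x (f x)).2 rfl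
  have e : 1 * x + 0 * f x + s = x + s := by ring
  rw [e] at this
  rw [← this]
  ring

theorem sym_of_trans {f : ℝ → ℝ} {s t : ℝ} (h : ∀ x, f (x + s) = f x + t) :
    Sym f 1 0 0 1 s t := by
  refine ⟨by norm_num, fun x y => ?_⟩
  have e1 : 1 * x + 0 * y + s = x + s := by ring
  rw [e1, h]
  constructor
  · intro h1
    linarith
  · intro h1
    rw [h1]
    ring

/-- the linear parts -/
def Lin (f : ℝ → ℝ) (a b c d : ℝ) : Prop := ∃ u v : ℝ, Sym f a b c d u v

theorem exists_sym {f : ℝ → ℝ} (hf : VerticallyRigid f) {c : ℝ} (hc : 0 < c) :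
    ∃ p q e u v : ℝ, p ^ 2 + q ^ 2 = 1 ∧ e ^ 2 = 1 ∧
      Sym f p (-(e * q * c)) q (e * p * c) u v := by
  obtain ⟨p, q, t₁, t₂, σ, h1, h2, h3, h4⟩ := exists_par hf hc
  refine ⟨p, q, σ, t₁, t₂, h1, h2, ?_, fun x y => ?_⟩
  · have hσ : σ ≠ 0 := by
      rintro rfl
      norm_num at h2
    have : p * (σ * p * c) - -(σ * q * c) * q = σ * c := by
      linear_combination (σ * c) * h1
    rw [this]
    exact mul_ne_zero hσ hc.ne'
  · constructor
    · intro h
      obtain ⟨x₀, hx₀⟩ := h4 (p * x + -(σ * q * c) * y + t₁)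
      have h5 := h3 x₀
      rw [← hx₀, ← h] at h5
      have d1 : p * (x - x₀) - σ * q * c * (y - f x₀) = 0 := by linear_combination hx₀
      have d2 : q * (x - x₀) + σ * p * c * (y - f x₀) = 0 := by linear_combination h5
      have d3 : x - x₀ = 0 := by
        linear_combination p * d1 + q * d2 - (x - x₀) * h1
      have d4 : (σ * c) * (y - f x₀) = 0 := by
        linear_combination -q * d1 + p * d2 - (σ * c * (y - f x₀)) * h1
      have hσ : σ ≠ 0 := by
        rintro rfl
        norm_num at h2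
      have d5 := (mul_eq_zero.1 d4).resolve_left (mul_ne_zero hσ hc.ne')
      have d6 : x₀ = x := by linarith
      rw [d6] at d5
      linarith
    · intro h
      have h5 := h3 x
      rw [h]
      have e1 : p * x + -(σ * q * c) * f x + t₁ = t₁ + p * x - σ * q * (c * f x) := by ring
      rw [e1, h5]
      ring

theorem lin_lg {f : ℝ → ℝ} (hf : VerticallyRigid f) : LG (Lin f) where
  det := by
    rintro a b c d ⟨u, v, h⟩
    exact h.1
  mul := by
    rintro a b c d a' b' c' d' ⟨u, v, h⟩ ⟨u', v', h'⟩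
    exact ⟨_, _, h.mul h'⟩
  inv := by
    rintro a b c d ⟨u, v, h⟩
    exact ⟨_, _, h.inv⟩
  rig := by
    intro c hc
    obtain ⟨p, q, e, u, v, h1, h2, h3⟩ := exists_sym hf hc
    exact ⟨p, q, e, h1, h2, u, v, h3⟩

/-- Uncountable subgroups of the line are dense. -/
theorem dense_of_not_countable (S : AddSubgroup ℝ) (h : ¬ (S : Set ℝ).Countable) :
    Dense (S : Set ℝ) := by
  rcases AddSubgroup.dense_or_cyclic S with h1 | ⟨a, ha⟩
  · exact h1
  · exfalso
    apply h
    rw [ha, ← AddSubgroup.zmultiples_eq_closure]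
    have : ((AddSubgroup.zmultiples a : AddSubgroup ℝ) : Set ℝ) = range fun n : ℤ => n • a := by
      ext x
      simp [AddSubgroup.mem_zmultiples_iff]
    rw [this]
    exact countable_range _

end Pool.Agent.Lib.MP_1755e3_an.Full
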