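import Pool.Agent.Lib.MP_1755e3_an.Full.Affine

set_option autoImplicit false

open Set Filter Topology

namespace Pool.Agent.Lib.MP_1755e3_an.Full

/-- the group of the `u` with `F (x + u) = r F x` for some `r > 0` -/
def expGroup (F : ℝ → ℝ) : AddSubgroup ℝ where
  carrier := {u : ℝ | ∃ r : ℝ, 0 < r ∧ ∀ x, F (x + u) = r * F x}
  zero_mem' := ⟨1, one_pos, fun x => by rw [add_zero, one_mul]⟩
  add_mem' := by
    rintro u u' ⟨r, hr, h⟩ ⟨r', hr', h'⟩
    refine ⟨r' * r, mul_pos hr' hr, fun x => ?_⟩
    rw [← add_assoc, h', h, mul_assoc]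
  neg_mem' := by
    rintro u ⟨r, hr, h⟩
    refine ⟨r⁻¹, inv_pos.2 hr, fun x => ?_⟩
    have := h (x + -u)
    rw [neg_add_cancel_right] at this
    rw [this]
    field_simp

/-- Case A: uncountably many vertical scalings. -/
theorem caseA {𝓕 : Filter ℝ} (hF : Nice 𝓕) {f : ℝ → ℝ} (hf : EM 𝓕 f)
    (hC : ¬ {r : ℝ | 0 < r ∧ Lin f 1 0 0 r}.Countable) :
    ∃ a b k : ℝ, ∀ᶠ x in 𝓕, f x = a + b * Real.exp (k * x) := by
  have hne := hF.neBot
  -- functional form
  have hform : ∀ r : ℝ, r ∈ {r : ℝ | 0 < r ∧ Lin f 1 0 0 r} →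
      ∃ u v : ℝ, ∀ x, f (x + u) = r * f x + v := by
    rintro r ⟨hr, u, v, h⟩
    refine ⟨u, v, fun x => ?_⟩
    have := (h.2 x (f x)).2 rfl
    have e : 1 * x + 0 * f x + u = x + u := by ring
    rw [e] at this
    rw [← this]
    ring
  choose! u v huv using hform
  obtain ⟨r₁, hr₁, hr₁1⟩ : ∃ r₁ ∈ {r : ℝ | 0 < r ∧ Lin f 1 0 0 r}, r₁ ≠ 1 := by
    by_contra hcon
    push Not at hcon
    exact hC ((countable_singleton (1 : ℝ)).mono fun r hr => hcon r hr)
  have hd : 1 - r₁ ≠ 0 := sub_ne_zero.2 (Ne.symm hr₁1)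
  set w := v r₁ / (1 - r₁) with hw
  have hv : ∀ r ∈ {r : ℝ | 0 < r ∧ Lin f 1 0 0 r}, v r = w * (1 - r) := by
    intro r hr
    have h1 := huv r hr (0 + u r₁)
    have h2 := huv r₁ hr₁ (0 + u r)
    rw [huv r₁ hr₁ 0] at h1
    rw [huv r hr 0] at h2
    have e : (0 : ℝ) + u r₁ + u r = 0 + u r + u r₁ := by ring
    rw [e, h2] at h1
    rw [hw]
    field_simp
    linear_combination -h1
  have hFr : ∀ r ∈ {r : ℝ | 0 < r ∧ Lin f 1 0 0 r}, ∀ x, f (x + u r) - w = r * (f x - w) := by
    intro r hr x
    rw [huv r hr x, hv r hr]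
    ring
  by_cases h0 : ∀ x, f x = w
  · refine ⟨w, 0, 0, Eventually.of_forall fun x => ?_⟩
    rw [h0 x]
    ring
  · push Not at h0
    obtain ⟨x₀, hx₀⟩ := h0
    set G := expGroup (fun x => f x - w) with hG
    have hGun : ¬ (G : Set ℝ).Countable := by
      intro h
      refine hC (MapsTo.countable_of_injOn (f := u) (t := (G : Set ℝ)) ?_ ?_ h)
      · intro r hr
        exact ⟨r, hr.1, hFr r hr⟩
      · intro r hr r' hr' hrr
        have h1 := hFr r hr x₀
        have h2 := hFr r' hr' x₀
        rw [hrr, h2] at h1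
        exact (mul_right_cancel₀ (sub_ne_zero.2 hx₀) h1).symm
    have hGd := dense_of_not_countable G hGun
    have hEM : EM 𝓕 (fun x => f x - w) := hF.em_sub hf (hF.em_measurable measurable_const)
    -- the sign
    let g : ℝ → ℝ := fun y => if 0 < y then 1 else if y < 0 then -1 else 0
    have hg : Measurable g :=
      Measurable.ite measurableSet_Ioi measurable_const
        (Measurable.ite measurableSet_Iio measurable_const measurable_const)
    obtain ⟨k, hk⟩ := hF.const (H := fun x => g (f x - w)) (hF.em_left hEM hg) hGd (by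
      rintro t ⟨r, hr, ht⟩
      refine Eventually.of_forall fun x => ?_
      have ht : f (x + t) - w = r * (f x - w) := ht x
      change g (f (x + t) - w) = g (f x - w)
      rw [ht]
      have e1 : (0 < r * (f x - w)) ↔ 0 < f x - w := by
        constructor
        · intro h
          exact (pos_iff_pos_of_mul_pos h).1 hr
        · intro h
          positivity
      have e2 : (r * (f x - w) < 0) ↔ f x - w < 0 := by
        constructor
        · intro h
          exact neg_of_mul_neg_right h hr.le
        · intro h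
          exact mul_neg_of_pos_of_neg hr h
      simp only [g, e1, e2])
    obtain ⟨x₁, hx₁⟩ := hk.exists
    rcases lt_trichotomy (f x₁ - w) 0 with hlt | heq | hgt
    · have hk1 : k = -1 := by
        rw [← hx₁]
        simp only [g, if_neg (not_lt.2 hlt.le), if_pos hlt]
      have hneg : ∀ᶠ x in 𝓕, f x - w < 0 := by
        filter_upwards [hk] with x hx
        rw [hk1] at hx
        by_contra hcon
        simp only [g, if_neg hcon] at hx
        split_ifs at hx
        · norm_num at hx
        · norm_num at hx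
      obtain ⟨κ, a, hκ⟩ := hF.affine (L := fun x => Real.log (f x - w))
        (hF.em_left hEM Real.measurable_log) (U := (G : Set ℝ)) hGd
        (α := fun t => Real.log (f (x₀ + t) - w) - Real.log (f x₀ - w)) (by
          rintro t ⟨r, hr, ht⟩
          filter_upwards [hneg] with x hx
          have ht1 : f (x + t) - w = r * (f x - w) := ht x
          have ht2 : f (x₀ + t) - w = r * (f x₀ - w) := ht x₀
          rw [ht1, ht2, Real.log_mul hr.ne' hx.ne, Real.log_mul hr.ne' (sub_ne_zero.2 hx₀)]
          ring)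
      refine ⟨w, -Real.exp a, κ, ?_⟩
      filter_upwards [hκ, hneg] with x hx hx2
      have h1 : Real.exp (Real.log (f x - w)) = -(f x - w) := by
        rw [← Real.log_neg_eq_log, Real.exp_log (by linarith)]
      rw [hx, Real.exp_add] at h1
      linear_combination h1
    · have hk1 : k = 0 := by
        rw [← hx₁]
        simp only [g, heq, lt_irrefl, if_false]
      refine ⟨w, 0, 0, ?_⟩
      filter_upwards [hk] with x hx
      rw [hk1] at hx
      by_cases h1 : 0 < f x - w
      · simp only [g, if_pos h1] at hx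
        norm_num at hx
      · by_cases h2 : f x - w < 0
        · simp only [g, if_neg h1, if_pos h2] at hx
          norm_num at hx
        · push Not at h1 h2
          have : f x - w = 0 := le_antisymm h1 h2
          linarith
    · have hk1 : k = 1 := by
        rw [← hx₁]
        simp only [g, if_pos hgt]
      have hpos : ∀ᶠ x in 𝓕, 0 < f x - w := by
        filter_upwards [hk] with x hx
        rw [hk1] at hx
        by_contra hcon
        simp only [g, if_neg hcon] at hx
        split_ifs at hx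
        · norm_num at hx
        · norm_num at hx
      obtain ⟨κ, a, hκ⟩ := hF.affine (L := fun x => Real.log (f x - w))
        (hF.em_left hEM Real.measurable_log) (U := (G : Set ℝ)) hGd
        (α := fun t => Real.log (f (x₀ + t) - w) - Real.log (f x₀ - w)) (by
          rintro t ⟨r, hr, ht⟩
          filter_upwards [hpos] with x hx
          have ht1 : f (x + t) - w = r * (f x - w) := ht x
          have ht2 : f (x₀ + t) - w = r * (f x₀ - w) := ht x₀
          rw [ht1, ht2, Real.log_mul hr.ne' hx.ne', Real.log_mul hr.ne' (sub_ne_zero.2 hx₀)]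
          ring)
      refine ⟨w, Real.exp a, κ, ?_⟩
      filter_upwards [hκ, hpos] with x hx hx2
      have h1 : Real.exp (Real.log (f x - w)) = f x - w := Real.exp_log hx2
      rw [hx, Real.exp_add] at h1
      linear_combination -h1

/-- the group of horizontal parts of the translations of the graph -/
def transGroup (f : ℝ → ℝ) : AddSubgroup ℝ where
  carrier := {s : ℝ | ∃ t : ℝ, ∀ x, f (x + s) = f x + t}
  zero_mem' := ⟨0, fun x => by rw [add_zero, add_zero]⟩
  add_mem' := by
    rintro s s' ⟨t, h⟩ ⟨t', h'⟩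
    refine ⟨t + t', fun x => ?_⟩
    rw [← add_assoc, h', h, add_assoc]
  neg_mem' := by
    rintro s ⟨t, h⟩
    refine ⟨-t, fun x => ?_⟩
    have := h (x + -s)
    rw [neg_add_cancel_right] at this
    rw [this]
    ring

/-- Case B1: the graph has a nontrivial translation, and some element is not diagonal. -/
theorem caseB1 {𝓕 : Filter ℝ} (hF : Nice 𝓕) {f : ℝ → ℝ} (hf : EM 𝓕 f)
    (hrig : VerticallyRigid f) (hC : {r : ℝ | 0 < r ∧ Lin f 1 0 0 r}.Countable)
    {s t : ℝ} (hst : Sym f 1 0 0 1 s t) (hne : ¬ (s = 0 ∧ t = 0)) :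
    ∃ a b : ℝ, ∀ᶠ x in 𝓕, f x = a + b * x := by
  have hs : ∀ s t : ℝ, Sym f 1 0 0 1 s t → ¬ (s = 0 ∧ t = 0) → s ≠ 0 := by
    rintro s t hst hne rfl
    have := hst.trans_eq 0
    rw [add_zero] at this
    exact hne ⟨rfl, by linarith⟩
  -- a translation which is not horizontal
  obtain ⟨s, t, hst, ht⟩ : ∃ s t : ℝ, Sym f 1 0 0 1 s t ∧ t ≠ 0 := by
    by_cases ht : t = 0
    · have hs0 := hs s t hst hne
      by_contra hcon
      push Not at hcon
      choose! p q e u v h1 h2 h3 using fun c (hc : 0 < c) => exists_sym hrig hc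
      have hq : ∀ c, 0 < c → q c = 0 := by
        intro c hc
        have h4 := hcon _ _ ((h3 c hc).conj_trans hst)
        rw [ht, mul_zero, add_zero] at h4
        exact (mul_eq_zero.1 h4).resolve_right hs0
      -- all elements are diagonal, so there are uncountably many vertical scalings
      have h5 : ∀ c, 0 < c → (p c = 1 ∨ p c = -1) := by
        intro c hc
        have := h1 c hc
        rw [hq c hc] at this
        exact sq_eq_one_iff.1 (by linarith)
      have h6 : ∀ P E : ℝ, {c : ℝ | 0 < c ∧ p c = P ∧ e c = E}.Countable := by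
        intro P E
        rcases {c : ℝ | 0 < c ∧ p c = P ∧ e c = E}.eq_empty_or_nonempty with h0 | h0
        · rw [h0]
          exact countable_empty
        · obtain ⟨c₀, hc₀, hp₀, he₀⟩ := h0
          refine MapsTo.countable_of_injOn (f := fun c => c / c₀)
            (t := {r : ℝ | 0 < r ∧ Lin f 1 0 0 r}) ?_ ?_ hC
          · rintro c ⟨hc, hp, hee⟩
            refine ⟨div_pos hc hc₀, ?_⟩
            have k1 := (lin_lg hrig).inv ⟨_, _, h3 c₀ hc₀⟩
            have k2 := (lin_lg hrig).mul k1 ⟨_, _, h3 c hc⟩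
            have hP := h1 c hc
            have hE := h2 c hc
            rw [hq c hc, hp] at hP
            rw [hee] at hE
            rw [hq c hc, hq c₀ hc₀, hp, hee, hp₀, he₀] at k2
            have hP0 : P ≠ 0 := by
              rintro rfl
              norm_num at hP
            have hE0 : E ≠ 0 := by
              rintro rfl
              norm_num at hE
            convert k2 using 1
            · field_simp
              ring_nf
              try linear_combination 0
            · ring
            · ring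
            · field_simp
              ring_nf
              try linear_combination 0
          · intro a _ b _ hab
            simpa [div_left_inj' hc₀.ne'] using hab
      refine Ioi_not_countable ((((h6 1 1).union (h6 1 (-1))).union
        ((h6 (-1) 1).union (h6 (-1) (-1)))).mono ?_)
      intro c hc
      have hc : 0 < c := hc
      rcases h5 c hc with h7 | h7 <;> rcases sq_eq_one_iff.1 (h2 c hc) with h8 | h8
      · exact Or.inl (Or.inl ⟨hc, h7, h8⟩)
      · exact Or.inl (Or.inr ⟨hc, h7, h8⟩)
      · exact Or.inr (Or.inl ⟨hc, h7, h8⟩)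
      · exact Or.inr (Or.inr ⟨hc, h7, h8⟩)
    · exact ⟨s, t, hst, ht⟩
  have hun : ¬ (transGroup f : Set ℝ).Countable := by
    intro h
    choose! p q e u v h1 h2 h3 using fun c (hc : 0 < c) => exists_sym hrig hc
    refine Ioi_not_countable (MapsTo.countable_of_injOn
      (f := fun c => p c * s + -(e c * q c * c) * t) (t := (transGroup f : Set ℝ)) ?_ ?_ h)
    · intro c hc
      exact ⟨_, ((h3 c hc).conj_trans hst).trans_eq⟩
    · have key : ∀ c, 0 < c → (p c * s + -(e c * q c * c) * t) ^ 2 +
          (f (0 + (p c * s + -(e c * q c * c) * t)) - f 0) ^ 2 = s ^ 2 + c ^ 2 * t ^ 2 := by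
        intro c hc
        rw [((h3 c hc).conj_trans hst).trans_eq 0]
        linear_combination (s ^ 2) * h1 c hc + (c ^ 2 * t ^ 2) * h1 c hc +
          (c ^ 2 * t ^ 2 * (p c ^ 2 + q c ^ 2)) * h2 c hc
      intro a ha b hb hab
      have ha : 0 < a := ha
      have hb : 0 < b := hb
      have hab : p a * s + -(e a * q a * a) * t = p b * s + -(e b * q b * b) * t := hab
      have h4 := key a ha
      rw [hab, key b hb] at h4
      have h5 : (a ^ 2 - b ^ 2) * t ^ 2 = 0 := by linear_combination -h4
      have h6 := (mul_eq_zero.1 h5).resolve_right (pow_ne_zero 2 ht)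
      have h7 : a ^ 2 = b ^ 2 := by linarith
      exact (pow_left_inj₀ ha.le hb.le two_ne_zero).1 h7
  obtain ⟨κ, a, h⟩ := hF.affine hf (dense_of_not_countable _ hun)
    (α := fun s => f (0 + s) - f 0) (by
      rintro s ⟨t, ht⟩
      refine Eventually.of_forall fun x => ?_
      rw [ht x, ht 0]
      ring)
  refine ⟨a, κ, ?_⟩
  filter_upwards [h] with x hx
  rw [hx]
  ring

/-- logarithms of the positive scalars in the group -/
def scGroup {f : ℝ → ℝ} (hrig : VerticallyRigid f) : AddSubgroup ℝ where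
  carrier := {s : ℝ | Real.exp s ∈ Sc (Lin f)}
  zero_mem' := by
    obtain ⟨p, q, e, h1, h2, h3⟩ := (lin_lg hrig).rig 1 one_pos
    have h4 := (lin_lg hrig).mul ((lin_lg hrig).inv h3) h3
    refine ⟨Real.exp_pos 0, ?_⟩
    have he : e ≠ 0 := by
      rintro rfl
      norm_num at h2
    have h5 : p * (e * p * 1) - -(e * q * 1) * q = e := by linear_combination e * h1
    rw [h5] at h4
    rw [Real.exp_zero]
    convert h4 using 1
    · field_simp
      linear_combination -h1
    · field_simp
      ring
    · field_simp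
      ring
    · field_simp
      linear_combination -h1
  add_mem' := by
    rintro a b ⟨ha, ha2⟩ ⟨hb, hb2⟩
    refine ⟨Real.exp_pos _, ?_⟩
    have := (lin_lg hrig).mul ha2 hb2
    rw [Real.exp_add]
    convert this using 1 <;> ring
  neg_mem' := by
    rintro a ⟨ha, ha2⟩
    refine ⟨Real.exp_pos _, ?_⟩
    have := (lin_lg hrig).inv ha2
    rw [Real.exp_neg]
    convert this using 1
    · field_simp
      ring
    · simp
    · simp
    · field_simp
      ring

/-- The ray argument, algebraic part. -/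
theorem rays {k k' : ℝ}
    (h : ∀ c : ℝ, 0 < c → (-1 + c ^ 2 * (k * k')) ^ 2 * ((1 + k ^ 2) * (1 + k' ^ 2)) =
      (-1 + k * k') ^ 2 * ((1 + c ^ 2 * k ^ 2) * (1 + c ^ 2 * k' ^ 2))) : k' = -k := by
  have h2 := h 2 (by norm_num)
  have h3 := h 3 (by norm_num)
  have h4 : (k + k') ^ 2 = 0 := by
    linear_combination (-3 / 5) * h2 + (1 / 10) * h3
  have h5 := pow_eq_zero_iff two_ne_zero |>.1 h4
  linarith

/-- The ray argument, one matrix. -/
theorem ray_matrix {k k' a b c d c₀ p q e : ℝ} (hdet : a * d - b * c ≠ 0)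
    (hpq : p ^ 2 + q ^ 2 = 1) (he : e ^ 2 = 1)
    (ha : a = p) (hb : b = -(e * q * c₀)) (hc : c = q) (hd : d = e * p * c₀)
    (h1 : (0 < a + b * k ∧ c + d * k = (a + b * k) * k) ∨
      (a + b * k < 0 ∧ c + d * k = -(a + b * k) * k'))
    (h2 : (0 < -a + b * k' ∧ -c + d * k' = (-a + b * k') * k) ∨
      (-a + b * k' < 0 ∧ -c + d * k' = -(-a + b * k') * k')) :
    (-1 + c₀ ^ 2 * (k * k')) ^ 2 * ((1 + k ^ 2) * (1 + k' ^ 2)) =
      (-1 + k * k') ^ 2 * ((1 + c₀ ^ 2 * k ^ 2) * (1 + c₀ ^ 2 * k' ^ 2)) := by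
  have e1 : (a + b * k) ^ 2 + (c + d * k) ^ 2 = 1 + c₀ ^ 2 * k ^ 2 := by
    rw [ha, hb, hc, hd]
    linear_combination hpq + k ^ 2 * c₀ ^ 2 * (e ^ 2 * hpq + he)
  have e2 : (-a + b * k') ^ 2 + (-c + d * k') ^ 2 = 1 + c₀ ^ 2 * k' ^ 2 := by
    rw [ha, hb, hc, hd]
    linear_combination hpq + k' ^ 2 * c₀ ^ 2 * (e ^ 2 * hpq + he)
  have e3 : (a + b * k) * (-a + b * k') + (c + d * k) * (-c + d * k') =
      -1 + c₀ ^ 2 * (k * k') := by
    rw [ha, hb, hc, hd]
    linear_combination -hpq + k * k' * c₀ ^ 2 * (e ^ 2 * hpq + he)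
  rw [← e1, ← e2, ← e3]
  rcases h1 with ⟨h1, g1⟩ | ⟨h1, g1⟩ <;> rcases h2 with ⟨h2, g2⟩ | ⟨h2, g2⟩
  · exfalso
    have z1 : a * ((-a + b * k') + (a + b * k)) + b * ((-a + b * k') * k - (a + b * k) * k') = 0 := by
      ring
    have z2 : c * ((-a + b * k') + (a + b * k)) + d * ((-a + b * k') * k - (a + b * k) * k') = 0 := by
      linear_combination (-a + b * k') * g1 - (a + b * k) * g2
    have z3 : (a * d - b * c) * ((-a + b * k') + (a + b * k)) = 0 := by
      linear_combination d * z1 - b * z2
    have z4 := (mul_eq_zero.1 z3).resolve_left hdet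
    linarith
  · rw [g1, g2]
    ring
  · rw [g1, g2]
    ring
  · exfalso
    have z1 : a * ((-a + b * k') + (a + b * k)) + b * ((-a + b * k') * k - (a + b * k) * k') = 0 := by
      ring
    have z2 : c * ((-a + b * k') + (a + b * k)) + d * ((-a + b * k') * k - (a + b * k) * k') = 0 := by
      linear_combination (-a + b * k') * g1 - (a + b * k) * g2
    have z3 : (a * d - b * c) * ((-a + b * k') + (a + b * k)) = 0 := by
      linear_combination d * z1 - b * z2
    have z4 := (mul_eq_zero.1 z3).resolve_left hdet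
    linarith

/-- Case B2: no translations, uncountably many homotheties. -/
theorem caseB2 {𝓕 : Filter ℝ} (hF : Nice 𝓕) {f : ℝ → ℝ} (hf : EM 𝓕 f)
    (hrig : VerticallyRigid f) (hS : ¬ (Sc (Lin f)).Countable)
    (htr : ∀ s t : ℝ, Sym f 1 0 0 1 s t → s = 0 ∧ t = 0) :
    ∃ a b : ℝ, ∀ᶠ x in 𝓕, f x = a + b * x := by
  have hneB := hF.neBot
  -- the centre
  obtain ⟨ρ, hρ, hρ1⟩ : ∃ ρ ∈ Sc (Lin f), ρ ≠ 1 := by
    by_contra hcon
    push Not at hcon
    exact hS ((countable_singleton (1 : ℝ)).mono fun r hr => hcon r hr)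
  obtain ⟨hρ0, u₁, v₁, h₁⟩ := hρ
  have hd : 1 - ρ ≠ 0 := sub_ne_zero.2 (Ne.symm hρ1)
  set P₁ := u₁ / (1 - ρ) with hP₁
  set P₂ := v₁ / (1 - ρ) with hP₂
  have hfix : ∀ a b c d u v : ℝ, Sym f a b c d u v →
      a * P₁ + b * P₂ + u = P₁ ∧ c * P₁ + d * P₂ + v = P₂ := by
    intro a b c d u v h
    have g1 := h.mul h₁
    have g2 := h₁.mul h
    have g3 : Sym f (a * ρ + b * 0) (a * 0 + b * ρ) (c * ρ + d * 0) (c * 0 + d * ρ)
        (ρ * u + 0 * v + u₁) (0 * u + ρ * v + v₁) := by
      convert g2 using 1 <;> ring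
    obtain ⟨k1, k2⟩ := htr _ _ (g1.same_lin g3)
    rw [hP₁, hP₂]
    constructor
    · field_simp
      linear_combination k1
    · field_simp
      linear_combination k2
  set F : ℝ → ℝ := fun t => f (t + P₁) - P₂ with hFdef
  have hFsym : ∀ a b c d u v : ℝ, Sym f a b c d u v → ∀ t : ℝ,
      F (a * t + b * F t) = c * t + d * F t := by
    intro a b c d u v h t
    obtain ⟨k1, k2⟩ := hfix a b c d u v h
    have k3 := (h.2 (t + P₁) (f (t + P₁))).2 rfl
    have e1 : a * (t + P₁) + b * f (t + P₁) + u = a * t + b * F t + P₁ := by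
      change _ = a * t + b * (f (t + P₁) - P₂) + P₁
      linear_combination k1
    rw [e1] at k3
    change f (a * t + b * F t + P₁) - P₂ = _
    rw [← k3]
    change _ = c * t + d * (f (t + P₁) - P₂)
    linear_combination k2
  have hEMF : EM 𝓕 F :=
    hF.em_sub (hF.em_comp hf (measurable_id.add_const P₁) (hF.add P₁))
      (hF.em_measurable measurable_const)
  have hhom : ∀ r ∈ Sc (Lin f), ∀ t, F (r * t) = r * F t := by
    rintro r ⟨hr, u, v, h⟩ t
    have := hFsym _ _ _ _ _ _ h t
    have e1 : r * t + 0 * F t = r * t := by ring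
    have e2 : 0 * t + r * F t = r * F t := by ring
    rw [e1, e2] at this
    exact this
  have hF0 : F 0 = 0 := by
    have := hhom ρ ⟨hρ0, u₁, v₁, h₁⟩ 0
    rw [mul_zero] at this
    have h2 : (1 - ρ) * F 0 = 0 := by linear_combination this
    exact (mul_eq_zero.1 h2).resolve_left hd
  have hGun : ¬ (scGroup hrig : Set ℝ).Countable := by
    intro h
    refine hS (MapsTo.countable_of_injOn (f := Real.log) (t := (scGroup hrig : Set ℝ)) ?_ ?_ h)
    · intro r hr
      change Real.exp (Real.log r) ∈ Sc (Lin f)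
      rw [Real.exp_log hr.1]
      exact hr
    · exact Real.log_injOn_pos.mono fun r hr => hr.1
  have hGd := dense_of_not_countable _ hGun
  -- the two half-lines
  have half : ∀ ε : ℝ, ε ≠ 0 → ∃ k : ℝ, ∀ᶠ t in 𝓕, 0 < t → F (ε * t) = k * t := by
    intro ε hε
    obtain ⟨k, hk⟩ := hF.const (H := fun s => F (ε * Real.exp s) * (Real.exp s)⁻¹)
      (hF.em_mul (hF.em_comp (f := fun x => F (ε * x)) (g := Real.exp)
        (hF.em_comp (g := fun x => ε * x) hEMF (measurable_id.const_mul ε) (hF.mul ε hε))
        Real.measurable_exp hF.exp1) (hF.em_measurable Real.measurable_exp.inv)) hGd (by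
        intro u hu
        refine Eventually.of_forall fun x => ?_
        have h1 : F (ε * Real.exp (x + u)) = Real.exp u * F (ε * Real.exp x) := by
          rw [← hhom _ hu, Real.exp_add]
          congr 1
          ring
        change F (ε * Real.exp (x + u)) * (Real.exp (x + u))⁻¹ = _
        rw [h1, Real.exp_add]
        have := Real.exp_pos x
        have := Real.exp_pos u
        field_simp)
    refine ⟨k, hF.exp2 {t | F (ε * t) = k * t} ?_⟩
    filter_upwards [hk] with x hx
    rw [← hx]
    field_simp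
  obtain ⟨k, hk⟩ := half 1 one_ne_zero
  obtain ⟨k', hk'⟩ := half (-1) (by norm_num)
  -- images of the rays
  have img : ∀ ε l m n : ℝ, (∀ᶠ t in 𝓕, 0 < t → F (ε * t) = l * t) →
      (∀ t, F (ε * t) = l * t → F (t * m) = t * n) → ¬ (m = 0 ∧ n = 0) →
      (0 < m ∧ n = m * k) ∨ (m < 0 ∧ n = -m * k') := by
    intro ε l m n hl hmn hne
    rcases lt_trichotomy m 0 with hm | hm | hm
    · right
      refine ⟨hm, ?_⟩
      have h1 := (hF.mul (-m) (by linarith)).eventually hk'
      obtain ⟨s, h2, h3⟩ := (hF.exp1.eventually (hl.and h1)).exists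
      have hs := Real.exp_pos s
      have h4 := hmn _ (h2 hs)
      have h5 := h3 (by nlinarith)
      have e1 : -1 * (-m * Real.exp s) = Real.exp s * m := by ring
      rw [e1, h4] at h5
      have h6 : Real.exp s * (n - -m * k') = 0 := by linear_combination h5
      have h7 := (mul_eq_zero.1 h6).resolve_left hs.ne'
      linarith
    · exfalso
      obtain ⟨s, h2⟩ := (hF.exp1.eventually hl).exists
      have hs := Real.exp_pos s
      have h4 := hmn _ (h2 hs)
      rw [hm, mul_zero, hF0] at h4
      exact hne ⟨hm, (mul_eq_zero.1 h4.symm).resolve_left hs.ne'⟩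
    · left
      refine ⟨hm, ?_⟩
      have h1 := (hF.mul m (by linarith)).eventually hk
      obtain ⟨s, h2, h3⟩ := (hF.exp1.eventually (hl.and h1)).exists
      have hs := Real.exp_pos s
      have h4 := hmn _ (h2 hs)
      have h5 := h3 (by nlinarith)
      have e1 : 1 * (m * Real.exp s) = Real.exp s * m := by ring
      rw [e1, h4] at h5
      have h6 : Real.exp s * (n - m * k) = 0 := by linear_combination h5
      have h7 := (mul_eq_zero.1 h6).resolve_left hs.ne'
      linarith
  have hkk : k' = -k := by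
    refine rays fun c hc => ?_
    obtain ⟨p, q, e, u, v, h1, h2, h3⟩ := exists_sym hrig hc
    have hS3 := hFsym _ _ _ _ _ _ h3
    have hdet := h3.1
    refine ray_matrix hdet h1 h2 rfl rfl rfl rfl
      (img 1 k _ _ hk ?_ ?_) (img (-1) k' _ _ hk' ?_ ?_)
    · intro t ht
      have := hS3 (1 * t)
      rw [ht] at this
      have e1 : p * (1 * t) + -(e * q * c) * (k * t) = t * (p + -(e * q * c) * k) := by ring
      have e2 : q * (1 * t) + e * p * c * (k * t) = t * (q + e * p * c * k) := by ring
      rw [e1, e2] at this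
      exact this
    · rintro ⟨z1, z2⟩
      apply hdet
      linear_combination (e * p * c) * z1 - (-(e * q * c)) * z2
    · intro t ht
      have := hS3 (-1 * t)
      rw [ht] at this
      have e1 : p * (-1 * t) + -(e * q * c) * (k' * t) = t * (-p + -(e * q * c) * k') := by ring
      have e2 : q * (-1 * t) + e * p * c * (k' * t) = t * (-q + e * p * c * k') := by ring
      rw [e1, e2] at this
      exact this
    · rintro ⟨z1, z2⟩
      apply hdet
      linear_combination -(e * p * c) * z1 + (-(e * q * c)) * z2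
  have hfin : ∀ᶠ t in 𝓕, F t = k * t := by
    have h1 := (hF.mul (-1) (by norm_num)).eventually hk'
    filter_upwards [hk, h1] with t ht1 ht2
    rcases lt_trichotomy t 0 with ht | ht | ht
    · have := ht2 (by linarith)
      have e1 : -1 * (-1 * t) = t := by ring
      rw [e1, hkk] at this
      rw [this]
      ring
    · rw [ht, hF0, mul_zero]
    · have := ht1 ht
      rwa [one_mul] at this
  refine ⟨P₂ - k * P₁, k, ?_⟩
  filter_upwards [(hF.add (-P₁)).eventually hfin] with x hx
  have e1 : F (x + -P₁) = f x - P₂ := by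
    change f (x + -P₁ + P₁) - P₂ = _
    rw [neg_add_cancel_right]
  rw [e1] at hx
  linear_combination hx

/-- Main theorem for a nice filter. -/
theorem main {𝓕 : Filter ℝ} (hF : Nice 𝓕) {f : ℝ → ℝ} (hf : EM 𝓕 f)
    (hrig : VerticallyRigid f) :
    ∃ a b k : ℝ, (∀ᶠ x in 𝓕, f x = a + b * x) ∨ (∀ᶠ x in 𝓕, f x = a + b * Real.exp (k * x)) := by
  by_cases hC : {r : ℝ | 0 < r ∧ Lin f 1 0 0 r}.Countable
  · by_cases htr : ∀ s t : ℝ, Sym f 1 0 0 1 s t → s = 0 ∧ t = 0
    · obtain ⟨a, b, h⟩ := caseB2 hF hf hrig ((lin_lg hrig).uncountable_scalars hC) htr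
      exact ⟨a, b, 0, Or.inl h⟩
    · push Not at htr
      obtain ⟨s, t, hst, hne⟩ := htr
      obtain ⟨a, b, h⟩ := caseB1 hF hf hrig hC hst (fun h => hne h.1 h.2)
      exact ⟨a, b, 0, Or.inl h⟩
  · obtain ⟨a, b, k, h⟩ := caseA hF hf hC
    exact ⟨a, b, k, Or.inr h⟩

end Pool.Agent.Lib.MP_1755e3_an.Full
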