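import Pool.Agent.Lib.MP_1755e3_an.Full.Instances
import Pool.Agent.Lib.MP_1755e3_an.Coords

set_option autoImplicit false

open Set Filter Topology MeasureTheory

namespace Pool.Agent.Lib.MP_1755e3_an.Full

/-- A nice filter for which nonempty open sets are not small, and for which smooth maps with
positive derivative are nonsingular. -/
structure Nice2 (F : Filter ℝ) : Prop extends Nice F where
  op : ∀ U : Set ℝ, IsOpen U → U.Nonempty → ∃ᶠ x in F, x ∈ U
  nl : ∀ g g' : ℝ → ℝ, (∀ x, HasStrictDerivAt g (g' x) x) → Continuous g' → (∀ x, 0 < g' x) →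
    Tendsto g F F

theorem nice2_ae : Nice2 (ae (volume : Measure ℝ)) where
  toNice := nice_ae
  op U hU hne h := by
    have h1 : volume U ≠ 0 := (hU.measure_pos volume hne).ne'
    exact h1 (measure_eq_zero_iff_ae_notMem.2 h)
  nl g g' hg hg' hpos := by
    intro s hs
    rw [mem_map, mem_ae_iff]
    have hcont : Continuous g := continuous_iff_continuousAt.2 fun x => (hg x).hasDerivAt.continuousAt
    have hmono : StrictMono g := strictMono_of_deriv_pos fun x => by
      rw [(hg x).hasDerivAt.deriv]
      exact hpos x
    set N : Set ℝ := toMeasurable volume sᶜ with hN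
    have hN0 : volume N = 0 := by
      rw [hN, measure_toMeasurable]
      exact hs
    have hE : MeasurableSet (g ⁻¹' N) := hcont.measurable (measurableSet_toMeasurable _ _)
    have h1 := lintegral_image_eq_lintegral_abs_deriv_mul hE
      (fun x _ => (hg x).hasDerivAt.hasDerivWithinAt) (hmono.injective.injOn) (fun _ => 1)
    have h2 : volume (g '' (g ⁻¹' N)) = 0 := measure_mono_null (image_preimage_subset _ _) hN0
    rw [lintegral_one, Measure.restrict_apply_univ, h2] at h1
    have h3 : Measurable fun x => ENNReal.ofReal |g' x| * 1 := by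
      fun_prop
    have h4 := (lintegral_eq_zero_iff h3).1 h1.symm
    have h5 := (ae_restrict_iff' hE).1 h4
    have h6 : volume (g ⁻¹' N) = 0 := by
      rw [measure_eq_zero_iff_ae_notMem]
      filter_upwards [h5] with x hx hxE
      have h7 : ENNReal.ofReal |g' x| * 1 = 0 := hx hxE
      rw [mul_one, ENNReal.ofReal_eq_zero] at h7
      have h8 : 0 < |g' x| := abs_pos.2 (hpos x).ne'
      linarith
    refine measure_mono_null ?_ h6
    intro x hx
    exact subset_toMeasurable _ _ hx

theorem nice2_residual : Nice2 (residual ℝ) where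
  toNice := nice_residual
  op U hU hne := frequently_of_isOpen hU hne
  nl g g' hg hg' hpos := by
    have hcont : Continuous g := continuous_iff_continuousAt.2 fun x => (hg x).hasDerivAt.continuousAt
    refine tendsto_residual_of_isOpenMap hcont ?_
    rw [isOpenMap_iff_nhds_le]
    intro x
    rw [(hg x).map_nhds_eq (hpos x).ne']

section

variable {F : Filter ℝ} (hF : Nice2 F)
include hF

/-- Continuous functions which are equal `F`-almost everywhere are equal. -/
theorem Nice2.eq_of_eventually {g h : ℝ → ℝ} (hg : Continuous g) (hh : Continuous h)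
    (he : ∀ᶠ x in F, g x = h x) : ∀ x, g x = h x := by
  by_contra hcon
  push Not at hcon
  obtain ⟨x, hx⟩ := hcon
  have h1 : IsOpen {x | g x ≠ h x} := isOpen_ne_fun hg hh
  exact hF.op _ h1 ⟨x, hx⟩ (by
    filter_upwards [he] with y hy hy2
    exact hy2 hy)

theorem Nice2.aff {m : ℝ} (hm : m ≠ 0) (n : ℝ) : Tendsto (fun x : ℝ => m * x + n) F F :=
  (hF.add n).comp (hF.mul m hm)

/-- The almost constant case: the linear part is diagonal. -/
theorem Nice2.constant {f : ℝ → ℝ} {a : ℝ} (hf : ∀ᶠ x in F, f x = a) {c p q t₁ t₂ σ : ℝ}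
    (hP : Par f c p q t₁ t₂ σ) : q = 0 ∧ a = t₂ + σ * p * (c * a) := by
  obtain ⟨h1, h2, h3, h4⟩ := hP
  by_cases hp : p = 0
  · exfalso
    have h5 : ∀ᶠ x in F, f (t₁ - σ * q * (c * a)) = t₂ + q * x := by
      filter_upwards [hf] with x hx
      have := h3 x
      rw [hx, hp] at this
      rw [show t₁ - σ * q * (c * a) = t₁ + 0 * x - σ * q * (c * a) by ring, this]
      ring
    have h6 := hF.eq_of_eventually (g := fun _ => f (t₁ - σ * q * (c * a)))
      (h := fun x => t₂ + q * x) continuous_const (by fun_prop) h5
    have h7 : q = 0 := by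
      have e0 := h6 0
      have e1 := h6 1
      linarith
    rw [hp, h7] at h1
    norm_num at h1
  · have h5 := (hF.aff hp (t₁ - σ * q * (c * a))).eventually hf
    have h6 : ∀ᶠ x in F, a = t₂ + q * x + σ * p * (c * a) := by
      filter_upwards [hf, h5] with x hx hx2
      have := h3 x
      rw [hx] at this
      have e : p * x + (t₁ - σ * q * (c * a)) = t₁ + p * x - σ * q * (c * a) := by ring
      rw [e, this] at hx2
      exact hx2.symm
    have h7 := hF.eq_of_eventually (g := fun _ => a)
      (h := fun x => t₂ + q * x + σ * p * (c * a)) continuous_const (by fun_prop) h6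
    have e0 := h7 0
    have e1 := h7 1
    constructor
    · linarith
    · linarith

/-- If `f` is almost the nonconstant affine function `a + b x` then it is equal to it. -/
theorem Nice2.affine_exact {f : ℝ → ℝ} (hrig : VerticallyRigid f) {a b : ℝ} (hb : b ≠ 0)
    (hf : ∀ᶠ x in F, f x = a + b * x) : ∀ x, f x = a + b * x := by
  have hne := hF.neBot
  by_contra hcon
  push Not at hcon
  obtain ⟨x₀, hx₀⟩ := hcon
  set κ : ℝ := (f x₀ - a - b * x₀) * b / (1 + b ^ 2) with hκ
  have hb2 : (1 : ℝ) + b ^ 2 ≠ 0 := by positivity
  have hκ0 : κ ≠ 0 := by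
    rw [hκ]
    refine div_ne_zero (mul_ne_zero ?_ hb) hb2
    intro h
    apply hx₀
    linarith
  have key : ∀ c : ℝ, 0 < c → ∃ σ : ℝ, (σ = 1 ∨ σ = -1) ∧
      f (x₀ + κ * (1 - σ * c)) ≠ a + b * (x₀ + κ * (1 - σ * c)) := by
    intro c hc
    obtain ⟨p, q, t₁, t₂, σ, h1, h2, h3, h4⟩ := exists_par hrig hc
    refine ⟨σ, sq_eq_one_iff.1 h2, ?_⟩
    set m : ℝ := p - σ * q * (c * b) with hm
    set n : ℝ := t₁ - σ * q * (c * a) with hn
    -- the linear relations
    have hrel : b * m = q + σ * p * (c * b) ∧ a + b * n = t₂ + σ * p * (c * a) := by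
      by_cases hm0 : m = 0
      · exfalso
        have h5 : ∀ᶠ x in F, f n = (q + σ * p * (c * b)) * x + (t₂ + σ * p * (c * a)) := by
          filter_upwards [hf] with x hx
          have := h3 x
          rw [hx] at this
          rw [show n = t₁ + p * x - σ * q * (c * (a + b * x)) by
            rw [hn]; linear_combination x * hm - x * hm0, this]
          ring
        have h6 := hF.eq_of_eventually (g := fun _ => f n)
          (h := fun x => (q + σ * p * (c * b)) * x + (t₂ + σ * p * (c * a)))
          continuous_const (by fun_prop) h5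
        have h7 : q + σ * p * (c * b) = 0 := by
          have e0 := h6 0
          have e1 := h6 1
          linarith
        have h8 : (p - σ * q * (c * b)) ^ 2 + (q + σ * p * (c * b)) ^ 2 = 1 + c ^ 2 * b ^ 2 := by
          linear_combination h1 + c ^ 2 * b ^ 2 * (σ ^ 2 * h1 + h2)
        rw [← hm, hm0, h7] at h8
        have : 0 ≤ c ^ 2 * b ^ 2 := by positivity
        linarith
      · have h5 := (hF.aff hm0 n).eventually hf
        have h6 : ∀ᶠ x in F, a + b * (m * x + n) =
            (q + σ * p * (c * b)) * x + (t₂ + σ * p * (c * a)) := by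
          filter_upwards [hf, h5] with x hx hx2
          have := h3 x
          rw [hx] at this
          rw [← hx2, show m * x + n = t₁ + p * x - σ * q * (c * (a + b * x)) by
            rw [hn, hm]; ring, this]
          ring
        have h7 := hF.eq_of_eventually (g := fun x => a + b * (m * x + n))
          (h := fun x => (q + σ * p * (c * b)) * x + (t₂ + σ * p * (c * a)))
          (by fun_prop) (by fun_prop) h6
        have e0 := h7 0
        have e1 := h7 1
        constructor
        · linarith
        · linarith
    obtain ⟨hr1, hr2⟩ := hrel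
    obtain ⟨w, hw⟩ := h4 x₀
    have hfw := h3 w
    rw [← hw] at hfw
    set g : ℝ := f w - a - b * w with hg
    have hfwg : f w = a + b * w + g := by rw [hg]; ring
    have e1 : x₀ = m * w + n - σ * q * c * g := by
      rw [hw, hfwg, hm, hn]
      ring
    have e2 : f x₀ - a - b * x₀ = σ * c * g * (p + b * q) := by
      rw [hfw, e1, hfwg]
      linear_combination -w * hr1 - hr2
    have hg0 : g ≠ 0 := by
      intro h
      rw [h] at e2
      apply hx₀
      linarith
    have e3 : x₀ + κ * (1 - σ * c) = m * w + n := by
      have : κ * (1 - σ * c) = σ * q * c * g := by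
        rw [hκ, e2, div_mul_eq_mul_div, div_eq_iff hb2]
        rw [hm] at hr1
        linear_combination (σ * c * g) * hr1
      rw [this, e1]
      ring
    rw [e3]
    intro hz
    obtain ⟨w', hw'⟩ := h4 (m * w + n)
    have hfw' := h3 w'
    rw [← hw', hz] at hfw'
    have i1 : p * (w' - w) - σ * q * (c * (f w' - (a + b * w))) = 0 := by
      rw [hm, hn] at hw'
      linear_combination -hw'
    have i2 : q * (w' - w) + σ * p * (c * (f w' - (a + b * w))) = 0 := by
      linear_combination -hfw' + w * hr1 + hr2
    have i3 : w' = w := by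
      linear_combination p * i1 + q * i2 - (w' - w) * h1
    have i4 : c * (f w' - (a + b * w)) = 0 := by
      linear_combination -q * σ * i1 + p * σ * i2 -
        (c * (f w' - (a + b * w))) * h1 * σ ^ 2 - (c * (f w' - (a + b * w))) * h2
    have i5 := (mul_eq_zero.1 i4).resolve_left hc.ne'
    rw [i3] at i5
    exact hg0 (by rw [hg]; linarith)
  have k1 := (hF.aff (neg_ne_zero.2 hκ0) (x₀ + κ)).eventually hf
  have k2 := (hF.aff hκ0 (x₀ + κ)).eventually hf
  obtain ⟨s, hs1, hs2⟩ := (hF.exp1.eventually (k1.and k2)).exists
  obtain ⟨σ, hσ, hσ2⟩ := key _ (Real.exp_pos s)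
  rcases hσ with rfl | rfl
  · apply hσ2
    have : x₀ + κ * (1 - 1 * Real.exp s) = -κ * Real.exp s + (x₀ + κ) := by ring
    rw [this]
    exact hs1
  · apply hσ2
    have : x₀ + κ * (1 - -1 * Real.exp s) = κ * Real.exp s + (x₀ + κ) := by ring
    rw [this]
    exact hs2

end

/-- The growth argument. -/
theorem growth {b D C₀ m C₁ C₂ C₃ R : ℝ} (hb : b ≠ 0) (hD : D ≠ 0) (hC : C₃ ≠ 0)
    (h : ∀ y : ℝ, R < y → b * Real.exp (C₀ + m * y + D * Real.exp y) =
      C₁ + C₃ * y + C₂ * Real.exp y) : False := by
  have hev : ∀ᶠ y : ℝ in atTop, b * Real.exp (C₀ + m * y + D * Real.exp y) =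
      C₁ + C₃ * y + C₂ * Real.exp y := by
    filter_upwards [eventually_gt_atTop R] with y hy
    exact h y hy
  have t0 : Tendsto (fun y : ℝ => Real.exp (-y)) atTop (𝓝 0) :=
    Real.tendsto_exp_neg_atTop_nhds_zero
  have t1 : Tendsto (fun y : ℝ => y * Real.exp (-y)) atTop (𝓝 0) := by
    have := Real.tendsto_pow_mul_exp_neg_atTop_nhds_zero 1
    simpa using this
  have tE : ∀ m' : ℝ, Tendsto (fun y : ℝ => D + C₀ * Real.exp (-y) + m' * (y * Real.exp (-y)))
      atTop (𝓝 D) := by
    intro m'
    have := (tendsto_const_nhds (x := D)).add ((t0.const_mul C₀).add (t1.const_mul m'))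
    simp only [mul_zero, add_zero] at this
    refine this.congr fun y => ?_
    ring
  have hE : ∀ m' y : ℝ, Real.exp y * (D + C₀ * Real.exp (-y) + m' * (y * Real.exp (-y))) =
      C₀ + m' * y + D * Real.exp y := by
    intro m' y
    have : Real.exp y * Real.exp (-y) = 1 := by rw [← Real.exp_add]; simp
    linear_combination (C₀ + m' * y) * this
  rcases lt_or_gt_of_ne hD with hneg | hpos
  · -- the left side tends to `0`
    have s1 : Tendsto (fun y : ℝ => C₀ + m * y + D * Real.exp y) atTop atBot := by
      have := Real.tendsto_exp_atTop.atTop_mul_neg hneg (tE m)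
      exact this.congr fun y => hE m y
    have s2 : Tendsto (fun y : ℝ => b * Real.exp (C₀ + m * y + D * Real.exp y)) atTop (𝓝 0) := by
      have := (Real.tendsto_exp_atBot.comp s1).const_mul b
      simpa using this
    have s3 : Tendsto (fun y : ℝ => C₁ + C₃ * y + C₂ * Real.exp y) atTop (𝓝 0) :=
      s2.congr' hev
    have s4 : Tendsto (fun y : ℝ => (C₁ + C₃ * y + C₂ * Real.exp y) * Real.exp (-y)) atTop
        (𝓝 (0 * 0)) := s3.mul t0
    have s5 : Tendsto (fun y : ℝ => (C₁ + C₃ * y + C₂ * Real.exp y) * Real.exp (-y)) atTop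
        (𝓝 C₂) := by
      have := (tendsto_const_nhds (x := C₂)).add ((t0.const_mul C₁).add (t1.const_mul C₃))
      simp only [mul_zero, add_zero] at this
      refine this.congr fun y => ?_
      have : Real.exp y * Real.exp (-y) = 1 := by rw [← Real.exp_add]; simp
      linear_combination -C₂ * this
    have hC2 : C₂ = 0 := by
      have := tendsto_nhds_unique s5 s4
      simpa using this
    rw [hC2] at s3
    have s6 : Tendsto (fun y : ℝ => C₁ + C₃ * (y + 1) + 0 * Real.exp (y + 1)) atTop (𝓝 0) :=
      s3.comp (tendsto_atTop_add_const_right atTop 1 tendsto_id)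
    have s7 := s6.sub s3
    have s8 : Tendsto (fun _ : ℝ => C₃) atTop (𝓝 (0 - 0)) := by
      refine s7.congr fun y => ?_
      ring
    have s9 := tendsto_nhds_unique s8 tendsto_const_nhds
    rw [sub_zero] at s9
    exact hC s9.symm
  · have s1 : Tendsto (fun y : ℝ => C₀ + (m - 2) * y + D * Real.exp y) atTop atTop := by
      have := Real.tendsto_exp_atTop.atTop_mul_pos hpos (tE (m - 2))
      exact this.congr fun y => hE (m - 2) y
    have s2 : Tendsto (fun y : ℝ => Real.exp (C₀ + (m - 2) * y + D * Real.exp y)) atTop atTop :=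
      Real.tendsto_exp_atTop.comp s1
    have s3 : Tendsto (fun y : ℝ => b⁻¹ * ((C₁ * Real.exp (-y) + C₃ * (y * Real.exp (-y)) + C₂) *
        Real.exp (-y))) atTop (𝓝 (b⁻¹ * ((C₁ * 0 + C₃ * 0 + C₂) * 0))) :=
      (((((t0.const_mul C₁).add (t1.const_mul C₃)).add tendsto_const_nhds).mul t0).const_mul b⁻¹)
    have s4 : ∀ᶠ y : ℝ in atTop, b⁻¹ * ((C₁ * Real.exp (-y) + C₃ * (y * Real.exp (-y)) + C₂) *
        Real.exp (-y)) = Real.exp (C₀ + (m - 2) * y + D * Real.exp y) := by
      filter_upwards [hev] with y hy
      have e1 : Real.exp y * Real.exp (-y) = 1 := by rw [← Real.exp_add]; simp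
      have e2 : (C₁ * Real.exp (-y) + C₃ * (y * Real.exp (-y)) + C₂) * Real.exp (-y) =
          (C₁ + C₃ * y + C₂ * Real.exp y) * (Real.exp (-y) * Real.exp (-y)) := by
        linear_combination -C₂ * Real.exp (-y) * e1
      have e3 : Real.exp (C₀ + (m - 2) * y + D * Real.exp y) =
          Real.exp (C₀ + m * y + D * Real.exp y) * (Real.exp (-y) * Real.exp (-y)) := by
        rw [← Real.exp_add, ← Real.exp_add]
        congr 1
        ring
      rw [e2, ← hy, e3]
      field_simp
    exact not_tendsto_nhds_of_tendsto_atTop (s2.congr' (s4.mono fun y hy => hy.symm)) _ s3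

section

variable {F : Filter ℝ} (hF : Nice2 F)
include hF

/-- If `f` is almost the nonconstant function `a + b exp (k x)` then it is equal to it. -/
theorem Nice2.exp_exact {f : ℝ → ℝ} (hrig : VerticallyRigid f) {a b k : ℝ} (hb : b ≠ 0)
    (hk : k ≠ 0) (hf : ∀ᶠ x in F, f x = a + b * Real.exp (k * x)) :
    ∀ x, f x = a + b * Real.exp (k * x) := by
  have hne := hF.neBot
  have key : ∀ c : ℝ, 0 < c → ∀ x, f (x + Real.log c / k) = c * f x + (a - c * a) := by
    intro c hc
    obtain ⟨p, q, t₁, t₂, σ, h1, h2, h3, h4⟩ := exists_par hrig hc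
    have hσ : σ ≠ 0 := by
      rintro rfl
      norm_num at h2
    have hq : q = 0 := by
      by_contra hq
      set B : ℝ := σ * q * c * b with hB
      have hB0 : B ≠ 0 := by
        rw [hB]
        exact mul_ne_zero (mul_ne_zero (mul_ne_zero hσ hq) hc.ne') hb
      set R : ℝ := |p / k / B| with hR
      -- the substitution
      have hh : Tendsto (fun s : ℝ => k⁻¹ * (Real.exp s + R)) F F :=
        (hF.mul k⁻¹ (inv_ne_zero hk)).comp ((hF.add R).comp hF.exp1)
      let g : ℝ → ℝ := fun s => t₁ + p * (k⁻¹ * (Real.exp s + R)) -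
        σ * q * (c * (a + b * Real.exp (Real.exp s + R)))
      let g' : ℝ → ℝ := fun s => p * (k⁻¹ * Real.exp s) -
        σ * q * (c * (b * (Real.exp (Real.exp s + R) * Real.exp s)))
      have hg : ∀ s, HasStrictDerivAt g (g' s) s := by
        intro s
        have d1 : HasStrictDerivAt (fun s : ℝ => Real.exp s + R) (Real.exp s) s :=
          (Real.hasStrictDerivAt_exp s).add_const R
        have d2 : HasStrictDerivAt (fun s : ℝ => t₁ + p * (k⁻¹ * (Real.exp s + R)))
            (p * (k⁻¹ * Real.exp s)) s := ((d1.const_mul k⁻¹).const_mul p).const_add t₁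
        have d3 : HasStrictDerivAt (fun s : ℝ => σ * q * (c * (a + b * Real.exp (Real.exp s + R))))
            (σ * q * (c * (b * (Real.exp (Real.exp s + R) * Real.exp s)))) s :=
          (((d1.exp.const_mul b).const_add a).const_mul c).const_mul (σ * q)
        exact d2.sub d3
      have hg'c : Continuous g' := by
        fun_prop
      have hsign : ∀ s, |p / k / B| < Real.exp (Real.exp s + R) := by
        intro s
        have e1 : R < Real.exp (Real.exp s + R) := by
          have := Real.add_one_le_exp (Real.exp s + R)
          have := Real.exp_pos s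
          linarith
        rwa [hR] at e1
      have hform : ∀ s, g' s = -(B * Real.exp s) * (Real.exp (Real.exp s + R) - p / k / B) := by
        intro s
        have : g' s = p * (k⁻¹ * Real.exp s) -
          σ * q * (c * (b * (Real.exp (Real.exp s + R) * Real.exp s))) := rfl
        rw [this]
        field_simp
        rw [hB]
        ring
      have hgt : Tendsto g F F := by
        rcases lt_or_gt_of_ne hB0 with hBn | hBp
        · refine hF.nl g g' hg hg'c fun s => ?_
          rw [hform]
          refine mul_pos ?_ ?_
          · have := Real.exp_pos s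
            nlinarith
          · have := le_abs_self (p / k / B)
            have := hsign s
            linarith
        · have h5 := hF.nl (fun s => -g s) (fun s => -g' s) (fun s => (hg s).neg) hg'c.neg
            (fun s => by
              rw [hform]
              have e1 : 0 < B * Real.exp s := mul_pos hBp (Real.exp_pos s)
              have e2 : 0 < Real.exp (Real.exp s + R) - p / k / B := by
                have := le_abs_self (p / k / B)
                have := hsign s
                linarith
              have := mul_pos e1 e2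
              linarith)
          have h6 := (hF.mul (-1) (by norm_num)).comp h5
          refine h6.congr fun s => ?_
          simp
      have h5 : ∀ᶠ s in F, a + b * Real.exp (k * g s) =
          t₂ + q * (k⁻¹ * (Real.exp s + R)) +
            σ * p * (c * (a + b * Real.exp (Real.exp s + R))) := by
        filter_upwards [hh.eventually hf, hgt.eventually hf] with s hs1 hs2
        have e0 : k * (k⁻¹ * (Real.exp s + R)) = Real.exp s + R := by field_simp
        rw [e0] at hs1
        have := h3 (k⁻¹ * (Real.exp s + R))
        rw [hs1] at this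
        rw [← hs2, ← this]
      have hgc : Continuous g := by fun_prop
      have h6 := hF.eq_of_eventually (g := fun s => a + b * Real.exp (k * g s))
        (h := fun s => t₂ + q * (k⁻¹ * (Real.exp s + R)) +
            σ * p * (c * (a + b * Real.exp (Real.exp s + R)))) (by fun_prop) (by fun_prop) h5
      refine growth (b := b) (D := -(k * B)) (C₀ := k * (t₁ - σ * q * (c * a))) (m := p)
        (C₁ := t₂ + σ * p * (c * a) - a) (C₂ := σ * p * (c * b)) (C₃ := q * k⁻¹) (R := R) hb
        (neg_ne_zero.2 (mul_ne_zero hk hB0)) (mul_ne_zero hq (inv_ne_zero hk)) fun y hy => ?_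
      have h7 := h6 (Real.log (y - R))
      have e1 : Real.exp (Real.log (y - R)) + R = y := by
        rw [Real.exp_log (by linarith)]
        ring
      have e2 : g (Real.log (y - R)) = t₁ + p * (k⁻¹ * y) - σ * q * (c * (a + b * Real.exp y)) := by
        simp only [g, e1]
      simp only [e1, e2] at h7
      have e3 : k * (t₁ - σ * q * (c * a)) + p * y + -(k * B) * Real.exp y =
          k * (t₁ + p * (k⁻¹ * y) - σ * q * (c * (a + b * Real.exp y))) := by
        rw [hB]
        field_simp
        ring
      rw [e3]
      linear_combination h7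
    -- now the isometry is diagonal
    rw [hq] at h1
    have hp : p ^ 2 = 1 := by linarith
    have hp0 : p ≠ 0 := by
      rintro rfl
      norm_num at hp
    have h5 := (hF.aff hp0 t₁).eventually hf
    have h6 : ∀ᶠ x in F, a + b * Real.exp (k * (p * x + t₁)) =
        t₂ + σ * p * (c * (a + b * Real.exp (k * x))) := by
      filter_upwards [hf, h5] with x hx hx2
      have := h3 x
      rw [hx, hq] at this
      rw [← hx2]
      have e : p * x + t₁ = t₁ + p * x - σ * 0 * (c * (a + b * Real.exp (k * x))) := by ring
      rw [e, this]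
      ring
    have h7 := hF.eq_of_eventually (g := fun x => a + b * Real.exp (k * (p * x + t₁)))
      (h := fun x => t₂ + σ * p * (c * (a + b * Real.exp (k * x)))) (by fun_prop) (by fun_prop) h6
    have h8 : ∀ X : ℝ, 0 < X → a + b * (Real.exp (k * t₁) * Real.exp (p * Real.log X)) =
        t₂ + σ * p * (c * (a + b * X)) := by
      intro X hX
      have := h7 (Real.log X / k)
      have e1 : k * (Real.log X / k) = Real.log X := by field_simp
      have e2 : k * (p * (Real.log X / k) + t₁) = k * t₁ + p * Real.log X := by
        field_simp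
        ring
      rw [e1, e2, Real.exp_log hX, Real.exp_add] at this
      exact this
    have hK := Real.exp_pos (k * t₁)
    have hp1 : p = 1 := by
      rcases sq_eq_one_iff.1 hp with h | h
      · exact h
      · exfalso
        rw [h] at h8
        have e1 := h8 1 one_pos
        have e2 := h8 2 two_pos
        have e4 := h8 4 (by norm_num)
        have l2 : Real.exp (-1 * Real.log 2) = 1 / 2 := by
          rw [neg_one_mul, Real.exp_neg, Real.exp_log two_pos]
          norm_num
        have l4 : Real.exp (-1 * Real.log 4) = 1 / 4 := by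
          rw [neg_one_mul, Real.exp_neg, Real.exp_log (by norm_num)]
          norm_num
        rw [Real.log_one, mul_zero, Real.exp_zero] at e1
        rw [l2] at e2
        rw [l4] at e4
        have : σ * c * b = 0 := by linarith
        exact mul_ne_zero (mul_ne_zero hσ hc.ne') hb this
    rw [hp1] at h8
    have e1 := h8 1 one_pos
    have e2 := h8 2 two_pos
    rw [one_mul, Real.exp_log one_pos] at e1
    rw [one_mul, Real.exp_log two_pos] at e2
    have e3 : b * (Real.exp (k * t₁) - σ * c) = 0 := by linarith
    have e4 := (mul_eq_zero.1 e3).resolve_left hb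
    have hσ1 : σ = 1 := by
      rcases sq_eq_one_iff.1 h2 with h | h
      · exact h
      · exfalso
        rw [h] at e4
        linarith
    rw [hσ1] at e4 e1
    have e5 : Real.exp (k * t₁) = c := by linarith
    have e6 : t₁ = Real.log c / k := by
      rw [← e5, Real.log_exp]
      field_simp
    have e7 : t₂ = a - c * a := by
      rw [e5] at e1
      linarith
    intro x
    have := h3 x
    rw [hq, hp1, hσ1] at this
    rw [← e6, ← e7]
    have e : x + t₁ = t₁ + 1 * x - 1 * 0 * (c * f x) := by ring
    rw [e, this]
    ring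
  intro y
  obtain ⟨x, hx⟩ := hf.exists
  have h1 := key (Real.exp (k * (y - x))) (Real.exp_pos _) x
  rw [Real.log_exp] at h1
  have e1 : x + k * (y - x) / k = y := by field_simp; ring
  have e2 : Real.exp (k * y) = Real.exp (k * (y - x)) * Real.exp (k * x) := by
    rw [← Real.exp_add]
    congr 1
    ring
  rw [e1, hx] at h1
  rw [h1, e2]
  ring

end

end Pool.Agent.Lib.MP_1755e3_an.Full
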