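import Pool.Agent.Lib.MP_1755e3_an.Full.Filter

set_option autoImplicit false

open Set Filter Topology MeasureTheory
open scoped Pointwise

namespace Pool.Agent.Lib.MP_1755e3_an.Full

theorem nice_ae : Nice (ae (volume : Measure ℝ)) where
  ci := inferInstance
  neBot := inferInstance
  add t := (measurePreserving_add_right volume t).quasiMeasurePreserving.tendsto_ae
  mul c hc := by
    have : Measure.QuasiMeasurePreserving (fun x : ℝ => c * x) volume volume := by
      refine ⟨measurable_id.const_mul c, ?_⟩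
      rw [Real.map_volume_mul_left hc]
      exact Measure.smul_absolutelyContinuous
    exact this.tendsto_ae
  trans A B hA hB hfA hfB := by
    by_contra hcon
    push Not at hcon
    have h1 : ∀ᵐ t : ℝ, ∀ᵐ x : ℝ, ¬ (x ∈ A ∧ x + t ∈ B) := by
      refine ae_of_all _ fun t => ?_
      filter_upwards [hcon t] with x hx hx2
      exact hx hx2.1 hx2.2
    rw [Measure.ae_ae_comm] at h1
    · obtain ⟨x, hx, hx2⟩ := (hfA.and_eventually h1).exists
      have h2 : ∀ᵐ t : ℝ, x + t ∉ B := by
        filter_upwards [hx2] with t ht ht2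
        exact ht ⟨hx, ht2⟩
      have h3 := (measurePreserving_add_left volume (-x)).quasiMeasurePreserving.ae h2
      refine hfB ?_
      filter_upwards [h3] with y hy
      simpa using hy
    · have m1 : MeasurableSet {x : ℝ × ℝ | x.2 ∈ A} := measurable_snd hA
      have m2 : MeasurableSet {x : ℝ × ℝ | x.2 + x.1 ∈ B} :=
        (measurable_snd.add measurable_fst) hB
      exact (m1.inter m2).compl
  st A hA hfA := by
    have h1 : volume A ≠ 0 := by
      intro h
      exact hfA (measure_eq_zero_iff_ae_notMem.1 h)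
    obtain ⟨K, hKA, hK, hK0⟩ := hA.exists_lt_isCompact (pos_iff_ne_zero.2 h1)
    have h2 := eventually_nhds_zero_measure_vadd_sdiff_lt (μ := (volume : Measure ℝ)) hK
      hK.isClosed hK0.ne'
    obtain ⟨δ, hδ, h3⟩ := Metric.eventually_nhds_iff.1 h2
    refine ⟨δ, hδ, fun t ht => ?_⟩
    have h4 : volume ((-t +ᵥ K) \ K) < volume K := h3 (by simpa [Real.dist_eq] using ht)
    intro hcon
    have h5 : volume ((-t +ᵥ K) ∩ K) = 0 := by
      rw [measure_eq_zero_iff_ae_notMem]
      filter_upwards [hcon] with x hx hx2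
      refine hx ⟨hKA hx2.2, ?_⟩
      have := hx2.1
      rw [Set.mem_vadd_set_iff_neg_vadd_mem] at this
      simp only [neg_neg, vadd_eq_add] at this
      rw [add_comm]
      exact hKA this
    have h6 : volume (-t +ᵥ K) = volume K := measure_vadd _ _ _
    have h7 : volume (-t +ᵥ K) ≤ volume ((-t +ᵥ K) \ K) + volume ((-t +ᵥ K) ∩ K) := by
      rw [add_comm]
      exact (measure_le_inter_add_sdiff _ _ _)
    rw [h5, add_zero, h6] at h7
    exact absurd h7 (not_le.2 h4)
  exp1 := by
    intro s hs
    rw [mem_map, mem_ae_iff]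
    have h1 : volume (sᶜ ∩ Ioi 0) = 0 := measure_mono_null inter_subset_left hs
    have h2 : volume (Real.log '' (sᶜ ∩ Ioi 0)) = 0 := by
      refine addHaar_image_eq_zero_of_differentiableOn_of_addHaar_eq_zero volume ?_ h1
      intro x hx
      exact (Real.differentiableAt_log (ne_of_gt hx.2)).differentiableWithinAt
    refine measure_mono_null ?_ h2
    intro x hx
    exact ⟨Real.exp x, ⟨hx, Real.exp_pos x⟩, Real.log_exp x⟩
  exp2 s hs := by
    have h1 : volume {x | ¬ Real.exp x ∈ s} = 0 := hs
    have h2 : volume (Real.exp '' {x | ¬ Real.exp x ∈ s}) = 0 := by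
      refine addHaar_image_eq_zero_of_differentiableOn_of_addHaar_eq_zero volume ?_ h1
      intro x _
      exact Real.differentiableAt_exp.differentiableWithinAt
    rw [measure_eq_zero_iff_ae_notMem] at h2
    filter_upwards [h2] with t ht ht0
    by_contra hcon
    exact ht ⟨Real.log t, by simpa [Real.exp_log ht0] using hcon, Real.exp_log ht0⟩

theorem frequently_of_isOpen {U : Set ℝ} (hU : IsOpen U) (hne : U.Nonempty) :
    ∃ᶠ x in residual ℝ, x ∈ U := by
  intro h
  exact not_isMeagre_of_isOpen hU hne h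

theorem exists_open {A : Set ℝ} (hA : MeasurableSet A) (hf : ∃ᶠ x in residual ℝ, x ∈ A) :
    ∃ U : Set ℝ, IsOpen U ∧ U.Nonempty ∧ ∀ᶠ x in residual ℝ, (x ∈ A ↔ x ∈ U) := by
  obtain ⟨U, hU, h⟩ := hA.residualEq_isOpen
  have h' := Filter.eventuallyEq_set.1 h
  refine ⟨U, hU, ?_, h'⟩
  obtain ⟨x, hx, hx2⟩ := (hf.and_eventually h').exists
  exact ⟨x, hx2.1 hx⟩

theorem tendsto_residual_homeo (h : ℝ ≃ₜ ℝ) : Tendsto h (residual ℝ) (residual ℝ) :=
  tendsto_residual_of_isOpenMap h.continuous h.isOpenMap

theorem nice_residual : Nice (residual ℝ) where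
  ci := inferInstance
  neBot := by
    refine ⟨fun h => ?_⟩
    have := frequently_of_isOpen isOpen_univ (univ_nonempty : (univ : Set ℝ).Nonempty)
    rw [h] at this
    exact this (by simp)
  add t := tendsto_residual_homeo (Homeomorph.addRight t)
  mul c hc := tendsto_residual_homeo (Homeomorph.mulLeft₀ c hc)
  trans A B hA hB hfA hfB := by
    obtain ⟨U, hU, ⟨a, ha⟩, hAU⟩ := exists_open hA hfA
    obtain ⟨V, hV, ⟨b, hb⟩, hBV⟩ := exists_open hB hfB
    refine ⟨b - a, ?_⟩
    have ho : IsOpen (U ∩ (fun x => x + (b - a)) ⁻¹' V) :=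
      hU.inter (hV.preimage (continuous_id.add continuous_const))
    have h1 := frequently_of_isOpen ho ⟨a, ha, by simpa using hb⟩
    have h2 := (tendsto_residual_homeo (Homeomorph.addRight (b - a))).eventually hBV
    refine (h1.and_eventually (hAU.and h2)).mono fun x hx => ?_
    exact ⟨hx.2.1.2 hx.1.1, hx.2.2.2 hx.1.2⟩
  st A hA hfA := by
    obtain ⟨U, hU, ⟨a, ha⟩, hAU⟩ := exists_open hA hfA
    obtain ⟨δ, hδ, hball⟩ := Metric.isOpen_iff.1 hU a ha
    refine ⟨δ, hδ, fun t ht => ?_⟩
    have ho : IsOpen (U ∩ (fun x => x + t) ⁻¹' U) :=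
      hU.inter (hU.preimage (continuous_id.add continuous_const))
    have h1 := frequently_of_isOpen ho ⟨a, ha, hball (by simpa [Real.dist_eq] using ht)⟩
    have h2 := (tendsto_residual_homeo (Homeomorph.addRight t)).eventually hAU
    refine (h1.and_eventually (hAU.and h2)).mono fun x hx => ?_
    exact ⟨hx.2.1.2 hx.1.1, hx.2.2.2 hx.1.2⟩
  exp1 := tendsto_residual_of_isOpenMap Real.continuous_exp Real.isOpenEmbedding_exp.isOpenMap
  exp2 s hs := by
    have h1 : IsMeagre {x | ¬ Real.exp x ∈ s} := by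
      rw [IsMeagre]
      filter_upwards [hs] with x hx
      simpa using hx
    have h2 := Real.isOpenEmbedding_exp.isInducing.isMeagre_image h1
    rw [IsMeagre] at h2
    filter_upwards [h2] with t ht ht0
    by_contra hcon
    exact ht ⟨Real.log t, by simpa [Real.exp_log ht0] using hcon, Real.exp_log ht0⟩

end Pool.Agent.Lib.MP_1755e3_an.Full
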