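import Mathlib

set_option autoImplicit false

open Set Filter Topology

namespace Pool.Agent.Lib.MP_1755e3_an.Full

/-- A group `L` of invertible `2 × 2` matrices (given by their entries) which, for every `c > 0`,
contains a matrix `O * diag (1, c)` with `O` orthogonal. -/
structure LG (L : ℝ → ℝ → ℝ → ℝ → Prop) : Prop where
  det : ∀ {a b c d : ℝ}, L a b c d → a * d - b * c ≠ 0
  mul : ∀ {a b c d a' b' c' d' : ℝ}, L a b c d → L a' b' c' d' →
    L (a * a' + b * c') (a * b' + b * d') (c * a' + d * c') (c * b' + d * d')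
  inv : ∀ {a b c d : ℝ}, L a b c d →
    L (d / (a * d - b * c)) (-b / (a * d - b * c)) (-c / (a * d - b * c)) (a / (a * d - b * c))
  rig : ∀ c : ℝ, 0 < c → ∃ p q e : ℝ, p ^ 2 + q ^ 2 = 1 ∧ e ^ 2 = 1 ∧
    L p (-(e * q * c)) q (e * p * c)

/-- conformal matrices -/
def Cf (a b c d r : ℝ) : Prop := a ^ 2 + c ^ 2 = r ∧ b ^ 2 + d ^ 2 = r ∧ a * b + c * d = 0

theorem Cf.mul {a b c d r a' b' c' d' r' : ℝ} (h : Cf a b c d r) (h' : Cf a' b' c' d' r') :
    Cf (a * a' + b * c') (a * b' + b * d') (c * a' + d * c') (c * b' + d * d') (r * r') := by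
  obtain ⟨h1, h2, h3⟩ := h
  obtain ⟨k1, k2, k3⟩ := h'
  refine ⟨?_, ?_, ?_⟩
  · linear_combination a' ^ 2 * h1 + c' ^ 2 * h2 + 2 * a' * c' * h3 + r * k1
  · linear_combination b' ^ 2 * h1 + d' ^ 2 * h2 + 2 * b' * d' * h3 + r * k2
  · linear_combination a' * b' * h1 + c' * d' * h2 + (a' * d' + b' * c') * h3 + r * k3

theorem Cf.form {a b c d r : ℝ} (h : Cf a b c d r) :
    (d = a ∧ b = -c) ∨ (d = -a ∧ b = c) := by
  obtain ⟨h1, h2, h3⟩ := h
  have h4 : (a * d - b * c) ^ 2 = r ^ 2 := by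
    have : (a * d - b * c) ^ 2 = (a ^ 2 + c ^ 2) * (b ^ 2 + d ^ 2) - (a * b + c * d) ^ 2 := by ring
    rw [this, h1, h2, h3]
    ring
  rcases sq_eq_sq_iff_eq_or_eq_neg.1 h4 with h5 | h5
  · left
    have : (a - d) ^ 2 + (b + c) ^ 2 = 0 := by linear_combination h1 + h2 - 2 * h5
    have e1 : (a - d) ^ 2 = 0 := by nlinarith [sq_nonneg (a - d), sq_nonneg (b + c)]
    have e2 : (b + c) ^ 2 = 0 := by nlinarith [sq_nonneg (a - d), sq_nonneg (b + c)]
    have e3 := pow_eq_zero_iff (two_ne_zero) |>.1 e1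
    have e4 := pow_eq_zero_iff (two_ne_zero) |>.1 e2
    constructor <;> linarith
  · right
    have : (a + d) ^ 2 + (b - c) ^ 2 = 0 := by linear_combination h1 + h2 + 2 * h5
    have e1 : (a + d) ^ 2 = 0 := by nlinarith [sq_nonneg (a + d), sq_nonneg (b - c)]
    have e2 : (b - c) ^ 2 = 0 := by nlinarith [sq_nonneg (a + d), sq_nonneg (b - c)]
    have e3 := pow_eq_zero_iff (two_ne_zero) |>.1 e1
    have e4 := pow_eq_zero_iff (two_ne_zero) |>.1 e2
    constructor <;> linarith

section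

variable {L : ℝ → ℝ → ℝ → ℝ → Prop} (hL : LG L)
include hL

theorem LG.rig' (c : ℝ) (hc : 0 < c) : ∃ p q e : ℝ, p ^ 2 + q ^ 2 = 1 ∧ e ^ 2 = 1 ∧
    L p (-(e * q * c)) q (e * p * c) ∧ L p q (-(e * q / c)) (e * p / c) := by
  obtain ⟨p, q, e, h1, h2, h3⟩ := hL.rig c hc
  refine ⟨p, q, e, h1, h2, h3, ?_⟩
  have h4 := hL.inv h3
  have he : e ≠ 0 := by
    rintro rfl
    norm_num at h2
  have h5 : p * (e * p * c) - -(e * q * c) * q = e * c := by
    linear_combination e * c * h1
  rw [h5] at h4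
  have h6 : e * c ≠ 0 := mul_ne_zero he hc.ne'
  convert h4 using 1
  · field_simp
  · field_simp
  · rw [neg_div]
    congr 1
    rw [div_eq_div_iff hc.ne' h6]
    linear_combination (q * c) * h2
  · rw [div_eq_div_iff hc.ne' h6]
    linear_combination (p * c) * h2

/-- a similarity with squared ratio `r` belongs to the group -/
def Sim (L : ℝ → ℝ → ℝ → ℝ → Prop) (r : ℝ) : Prop :=
  ∃ x y : ℝ, x ^ 2 + y ^ 2 = r ∧ (L x (-y) y x ∨ L x y y (-x))

omit hL in
theorem sim_of_cf {a b c d r : ℝ} (h : L a b c d) (hc : Cf a b c d r) : Sim L r := by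
  refine ⟨a, c, hc.1, ?_⟩
  rcases hc.form with ⟨h1, h2⟩ | ⟨h1, h2⟩
  · left
    rw [h1, h2] at h
    exact h
  · right
    rw [h1, h2] at h
    exact h

/-- The coincidence lemma. -/
theorem LG.coincidence {A B C D : ℝ} (hA : L A B C D) (hs : A * B * C * D < 0) :
    Sim L (|A / D| * |A * D - B * C|) := by
  have hA0 : A ≠ 0 := by rintro rfl; simp at hs
  have hB0 : B ≠ 0 := by rintro rfl; simp at hs
  have hC0 : C ≠ 0 := by rintro rfl; simp at hs
  have hD0 : D ≠ 0 := by rintro rfl; simp at hs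
  have hpos1 : 0 < -(A * B / (C * D)) := by
    have : A * B / (C * D) = A * B * C * D / (C * D) ^ 2 := by field_simp
    rw [this]
    have h1 : A * B * C * D / (C * D) ^ 2 < 0 := div_neg_of_neg_of_pos hs (by positivity)
    linarith
  have hpos2 : 0 < -(B * D / (A * C)) := by
    have : B * D / (A * C) = A * B * C * D / (A * C) ^ 2 := by field_simp
    rw [this]
    have h1 : A * B * C * D / (A * C) ^ 2 < 0 := div_neg_of_neg_of_pos hs (by positivity)
    linarith
  set a' := √(-(A * B / (C * D))) with ha'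
  set a := √(-(B * D / (A * C))) with ha
  have ha'0 : 0 < a' := Real.sqrt_pos.2 hpos1
  have ha0 : 0 < a := Real.sqrt_pos.2 hpos2
  have ha'2 : a' ^ 2 = -(A * B / (C * D)) := Real.sq_sqrt hpos1.le
  have ha2 : a ^ 2 = -(B * D / (A * C)) := Real.sq_sqrt hpos2.le
  obtain ⟨p', q', e', h1', h2', h3', -⟩ := hL.rig' a' ha'0
  obtain ⟨p, q, e, h1, h2, -, h4⟩ := hL.rig' a ha0
  have key := hL.mul (hL.mul h3' hA) h4
  -- conformal middle matrix
  have hdet : A * D - B * C ≠ 0 := hL.det hA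
  have hM : Cf A (B / a) (a' * C) (a' * D / a) (A * (A * D - B * C) / D) := by
    refine ⟨?_, ?_, ?_⟩
    · rw [mul_pow, ha'2]
      field_simp
      ring
    · have : (B / a) ^ 2 + (a' * D / a) ^ 2 = (B ^ 2 + a' ^ 2 * D ^ 2) / a ^ 2 := by
        field_simp
      rw [this, ha'2, ha2]
      field_simp
      ring
    · have : A * (B / a) + a' * C * (a' * D / a) = (A * B + a' ^ 2 * (C * D)) / a := by
        field_simp
      rw [this, ha'2]
      field_simp
      ring
  have hO' : Cf p' (-(e' * q')) q' (e' * p') 1 := by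
    refine ⟨h1', ?_, by ring⟩
    linear_combination (p' ^ 2 + q' ^ 2) * h2' + h1'
  have hO : Cf p q (-(e * q)) (e * p) 1 := by
    refine ⟨?_, ?_, ?_⟩
    · linear_combination q ^ 2 * h2 + h1
    · linear_combination p ^ 2 * h2 + h1
    · linear_combination -(p * q) * h2
  have hfin := (hO'.mul hM).mul hO
  have hr : |A / D| * |A * D - B * C| = 1 * (A * (A * D - B * C) / D) * 1 := by
    have hpos : 0 < A * (A * D - B * C) / D := by
      have : A * (A * D - B * C) / D = A ^ 2 - (A * B * C * D) / D ^ 2 := by field_simp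
      rw [this]
      have h5 : A * B * C * D / D ^ 2 < 0 := div_neg_of_neg_of_pos hs (by positivity)
      have h6 : 0 < A ^ 2 := by positivity
      linarith
    rw [← abs_mul, one_mul, mul_one]
    rw [← abs_of_pos hpos]
    congr 1
    field_simp
  rw [hr]
  refine sim_of_cf key ?_
  convert hfin using 1
  · field_simp
  · field_simp
  · field_simp
  · field_simp

/-- positive scalars of the group -/
def Sc (L : ℝ → ℝ → ℝ → ℝ → Prop) : Set ℝ := {ρ : ℝ | 0 < ρ ∧ L ρ 0 0 ρ}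

theorem LG.trace_zero {a b c : ℝ} (h : L a b c (-a)) : (a * (-a) - b * c) ^ 2 ∈ Sc L := by
  refine ⟨?_, ?_⟩
  · have := hL.det h
    positivity
  · have h2 := hL.mul h h
    have h4 := hL.mul h2 h2
    convert h4 using 1 <;> ring

/-- Conjugation of a rotation-type similarity by the element with parameter `r`. -/
theorem LG.conj {x y : ℝ} (h : L x (-y) y x) {r : ℝ} (hr : 0 < r) :
    L x (-(y * r)) (y / r) x ∨
      L (x / (x ^ 2 + y ^ 2)) (-(y * r) / (x ^ 2 + y ^ 2)) (y / r / (x ^ 2 + y ^ 2))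
        (x / (x ^ 2 + y ^ 2)) := by
  obtain ⟨p, q, e, h1, h2, h3, h4⟩ := hL.rig' r hr
  have hn : x ^ 2 + y ^ 2 ≠ 0 := by
    have := hL.det h
    intro h0
    apply this
    linarith
  have key := hL.mul h4 (hL.mul h h3)
  have h5 : L x (-(e * y * r)) (e * y / r) x := by
    convert key using 1
    · linear_combination -x * h1
    · linear_combination (e * y * r) * h1
    · field_simp
      linear_combination -(y * e) * h1
    · field_simp
      linear_combination (-(e ^ 2) * x) * h1 - x * h2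
  rcases sq_eq_one_iff.1 h2 with he | he
  · left
    convert h5 using 1
    · rw [he, one_mul]
    · rw [he, one_mul]
  · right
    have h6 := hL.inv h5
    have h7 : x * x - -(e * y * r) * (e * y / r) = x ^ 2 + y ^ 2 := by
      field_simp
      linear_combination y ^ 2 * h2
    rw [h7] at h6
    convert h6 using 1
    · congr 1
      rw [he]
      ring
    · congr 1
      rw [he]
      ring

/-- Two rotation-type similarities produce a homothety. -/
theorem LG.two {x y x' y' : ℝ} (h : L x (-y) y x) (h' : L x' (-y') y' x') (hy : 0 < x * y)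
    (hy' : 0 < x' * y') (hx : y ^ 2 ≤ x ^ 2) (hx' : y' ^ 2 ≤ x' ^ 2) :
    ((x ^ 2 + y ^ 2) * (x' ^ 2 + y' ^ 2)) ^ 2 ∈ Sc L ∨
      ((x ^ 2 + y ^ 2) / (x' ^ 2 + y' ^ 2)) ^ 2 ∈ Sc L := by
  have hy0 : y ≠ 0 := by rintro rfl; simp at hy
  have hy'0 : y' ≠ 0 := by rintro rfl; simp at hy'
  have hx0 : x ≠ 0 := by rintro rfl; simp at hy
  have hx'0 : x' ≠ 0 := by rintro rfl; simp at hy'
  set m := (x * x') / (y * y') with hm
  have hm0 : 0 < m := by
    have : m = (x * y) * (x' * y') / (y * y') ^ 2 := by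
      rw [hm]
      field_simp
    rw [this]
    positivity
  have hm1 : 1 ≤ m := by
    have h1 : 1 ≤ m ^ 2 := by
      have : m ^ 2 = (x ^ 2 / y ^ 2) * (x' ^ 2 / y' ^ 2) := by
        rw [hm]
        field_simp
      rw [this]
      have e1 : 1 ≤ x ^ 2 / y ^ 2 := by
        rw [le_div_iff₀ (by positivity)]
        linarith
      have e2 : 1 ≤ x' ^ 2 / y' ^ 2 := by
        rw [le_div_iff₀ (by positivity)]
        linarith
      nlinarith
    nlinarith
  set r := m + √(m ^ 2 - 1) with hr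
  have hsq : √(m ^ 2 - 1) ^ 2 = m ^ 2 - 1 := Real.sq_sqrt (by nlinarith)
  have hr0 : 0 < r := by positivity
  have hr2 : r ^ 2 + 1 = 2 * m * r := by
    rw [hr]
    linear_combination hsq
  have hr3 : y * y' * (r ^ 2 + 1) = 2 * (x * x') * r := by
    rw [hr2, hm]
    field_simp
  have hn' : x' ^ 2 + y' ^ 2 ≠ 0 := by positivity
  rcases hL.conj h' hr0 with h1 | h1
  · left
    have h2 := hL.mul h h1
    have e : y * -(y' * r) + x * x' = -(x * x' + -y * (y' / r)) := by
      field_simp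
      linear_combination -hr3
    rw [e] at h2
    have h3 := hL.trace_zero h2
    convert h3 using 2
    rw [← e]
    field_simp
    ring
  · right
    have h2 := hL.mul h h1
    have e : y * (-(y' * r) / (x' ^ 2 + y' ^ 2)) + x * (x' / (x' ^ 2 + y' ^ 2)) =
        -(x * (x' / (x' ^ 2 + y' ^ 2)) + -y * (y' / r / (x' ^ 2 + y' ^ 2))) := by
      field_simp
      linear_combination -hr3
    rw [e] at h2
    have h3 := hL.trace_zero h2
    convert h3 using 2
    rw [← e]
    field_simp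
    ring

/-- squared ratios of rotation-type similarities -/
def Rp (L : ℝ → ℝ → ℝ → ℝ → Prop) : Set ℝ :=
  {r : ℝ | 0 < r ∧ ∃ x y : ℝ, x ^ 2 + y ^ 2 = r ∧ L x (-y) y x}

def R2 (L : ℝ → ℝ → ℝ → ℝ → Prop) : Set ℝ :=
  {r : ℝ | 0 < r ∧ ∃ x y : ℝ, x ^ 2 + y ^ 2 = r ∧ L x (-y) y x ∧ y ^ 2 ≤ x ^ 2}

def R3 (L : ℝ → ℝ → ℝ → ℝ → Prop) : Set ℝ :=
  {r : ℝ | 0 < r ∧ ∃ x y : ℝ, x ^ 2 + y ^ 2 = r ∧ L x (-y) y x ∧ y ^ 2 ≤ x ^ 2 ∧ 0 ≤ x * y}

def R4 (L : ℝ → ℝ → ℝ → ℝ → Prop) : Set ℝ :=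
  {r : ℝ | 0 < r ∧ ∃ x y : ℝ, x ^ 2 + y ^ 2 = r ∧ L x (-y) y x ∧ y ^ 2 ≤ x ^ 2 ∧ 0 < x * y}

omit hL in
theorem cpre {S : Set ℝ} (hS : S.Countable) (g : ℝ → ℝ) (hg : InjOn g (Ioi 0)) :
    {r : ℝ | 0 < r ∧ g r ∈ S}.Countable :=
  MapsTo.countable_of_injOn (f := g) (t := S) (fun _ hr => hr.2) (hg.mono fun _ hr => hr.1) hS

theorem LG.r4_countable (hS : (Sc L).Countable) : (R4 L).Countable := by
  rcases (R4 L).eq_empty_or_nonempty with he | ⟨r₀, hr₀⟩
  · rw [he]
    exact countable_empty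
  · obtain ⟨hr₀0, x, y, hxy, hLxy, h1, h2⟩ := hr₀
    have c1 : {r : ℝ | 0 < r ∧ (r₀ * r) ^ 2 ∈ Sc L}.Countable := by
      refine cpre hS (fun r => (r₀ * r) ^ 2) ?_
      intro a ha b hb hab
      have ha : 0 < a := ha
      have hb : 0 < b := hb
      have h3 : r₀ * a = r₀ * b := (pow_left_inj₀ (by positivity) (by positivity)
        two_ne_zero).1 hab
      exact mul_left_cancel₀ hr₀0.ne' h3
    have c2 : {r : ℝ | 0 < r ∧ (r₀ / r) ^ 2 ∈ Sc L}.Countable := by
      refine cpre hS (fun r => (r₀ / r) ^ 2) ?_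
      intro a ha b hb hab
      have ha : 0 < a := ha
      have hb : 0 < b := hb
      have h3 : r₀ / a = r₀ / b := (pow_left_inj₀ (by positivity) (by positivity)
        two_ne_zero).1 hab
      rw [div_eq_div_iff ha.ne' hb.ne'] at h3
      exact (mul_left_cancel₀ hr₀0.ne' h3).symm
    refine (c1.union c2).mono ?_
    rintro r ⟨hr0, x', y', hxy', hLxy', h1', h2'⟩
    rcases hL.two hLxy hLxy' h2 h2' h1 h1' with h | h
    · left
      exact ⟨hr0, by rw [← hxy, ← hxy']; exact h⟩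
    · right
      exact ⟨hr0, by rw [← hxy, ← hxy']; exact h⟩

theorem LG.r3_countable (hS : (Sc L).Countable) : (R3 L).Countable := by
  refine (hS.union (hL.r4_countable hS)).mono ?_
  rintro r ⟨hr0, x, y, hxy, hLxy, h1, h2⟩
  rcases h2.eq_or_lt with h3 | h3
  · left
    have hy : y = 0 := by
      rcases mul_eq_zero.1 h3.symm with hx | hy
      · rw [hx] at h1
        nlinarith [sq_nonneg y]
      · exact hy
    refine ⟨hr0, ?_⟩
    have h4 := hL.mul hLxy hLxy
    subst hy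
    convert h4 using 1
    · linear_combination -hxy
    · ring
    · ring
    · linear_combination -hxy
  · right
    exact ⟨hr0, x, y, hxy, hLxy, h1, h3⟩

theorem LG.r2_countable (hS : (Sc L).Countable) : (R2 L).Countable := by
  have h3 := hL.r3_countable hS
  have c1 : {r : ℝ | 0 < r ∧ r⁻¹ ∈ R3 L}.Countable := by
    refine cpre h3 (fun r => r⁻¹) ?_
    intro a _ b _ hab
    exact inv_injective hab
  refine (h3.union c1).mono ?_
  rintro r ⟨hr0, x, y, hxy, hLxy, h1⟩
  rcases le_total 0 (x * y) with h2 | h2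
  · left
    exact ⟨hr0, x, y, hxy, hLxy, h1, h2⟩
  · right
    refine ⟨hr0, inv_pos.2 hr0, x / r, -y / r, ?_, ?_, ?_, ?_⟩
    · field_simp
      linear_combination hxy
    · have h4 := hL.inv hLxy
      have e : x * x - -y * y = r := by linear_combination hxy
      rw [e] at h4
      convert h4 using 1
      ring
    · rw [div_pow, div_pow, neg_sq]
      gcongr
    · have : x / r * (-y / r) = -(x * y) / r ^ 2 := by
        field_simp
      rw [this]
      apply div_nonneg <;> nlinarith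

theorem LG.rp_countable (hS : (Sc L).Countable) : (Rp L).Countable := by
  have h2 := hL.r2_countable hS
  have c1 : {r : ℝ | 0 < r ∧ r ^ 2 ∈ R2 L}.Countable := by
    refine cpre h2 (fun r => r ^ 2) ?_
    intro a ha b hb hab
    exact (pow_left_inj₀ (le_of_lt ha) (le_of_lt hb) two_ne_zero).1 hab
  have c2 : {r : ℝ | 0 < r ∧ r ^ 3 ∈ R2 L}.Countable := by
    refine cpre h2 (fun r => r ^ 3) ?_
    intro a ha b hb hab
    exact (pow_left_inj₀ (le_of_lt ha) (le_of_lt hb) three_ne_zero).1 hab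
  refine (h2.union (c1.union c2)).mono ?_
  rintro r ⟨hr0, x, y, hxy, hLxy⟩
  by_cases h1 : y ^ 2 ≤ x ^ 2
  · left
    exact ⟨hr0, x, y, hxy, hLxy, h1⟩
  · right
    push Not at h1
    have hL2 := hL.mul hLxy hLxy
    by_cases h3 : (2 * x * y) ^ 2 ≤ (x ^ 2 - y ^ 2) ^ 2
    · left
      refine ⟨hr0, by positivity, x ^ 2 - y ^ 2, 2 * x * y, ?_, ?_, h3⟩
      · rw [← hxy]
        ring
      · convert hL2 using 1 <;> ring
    · right
      push Not at h3
      have hL3 := hL.mul hL2 hLxy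
      refine ⟨hr0, by positivity, x ^ 3 - 3 * x * y ^ 2, 3 * x ^ 2 * y - y ^ 3, ?_, ?_, ?_⟩
      · rw [← hxy]
        ring
      · convert hL3 using 1 <;> ring
      · have e : (x ^ 3 - 3 * x * y ^ 2) ^ 2 - (3 * x ^ 2 * y - y ^ 3) ^ 2 =
            (y ^ 2 - x ^ 2) * (2 * ((2 * x * y) ^ 2 - (x ^ 2 - y ^ 2) ^ 2) +
              (x ^ 2 + y ^ 2) ^ 2) := by ring
        have : 0 ≤ (y ^ 2 - x ^ 2) * (2 * ((2 * x * y) ^ 2 - (x ^ 2 - y ^ 2) ^ 2) +
              (x ^ 2 + y ^ 2) ^ 2) := by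
          apply mul_nonneg
          · linarith
          · have := sq_nonneg (x ^ 2 + y ^ 2)
            linarith
        linarith

theorem LG.sim_countable (hS : (Sc L).Countable) : {r : ℝ | 0 < r ∧ Sim L r}.Countable := by
  refine ((hL.rp_countable hS).union hS).mono ?_
  rintro r ⟨hr0, x, y, hxy, h | h⟩
  · left
    exact ⟨hr0, x, y, hxy, h⟩
  · right
    refine ⟨hr0, ?_⟩
    have h2 := hL.mul h h
    convert h2 using 1
    · linear_combination -hxy
    · ring
    · ring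
    · linear_combination -hxy

end

end Pool.Agent.Lib.MP_1755e3_an.Full
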