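import Pool.Agent.Lib.MP_1755e3_an.Full.Linear

set_option autoImplicit false

open Set Filter Topology

namespace Pool.Agent.Lib.MP_1755e3_an.Full

theorem pos_of_log {c z : ℝ} (hc : 1 < c) (hz : 0 < z) (h : Real.log c < |Real.log z|) :
    0 < (1 - c * z) * (c - z) := by
  have hc0 : 0 < c := by linarith
  rcases lt_abs.1 h with h1 | h1
  · have h2 : c < z := (Real.log_lt_log_iff hc0 hz).1 h1
    have h3 : 1 - c * z < 0 := by nlinarith
    have h4 : c - z < 0 := by linarith
    exact mul_pos_of_neg_of_neg h3 h4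
  · have h2 : Real.log z < Real.log c⁻¹ := by
      rw [Real.log_inv]
      linarith
    have h3 : z < c⁻¹ := (Real.log_lt_log_iff hz (by positivity)).1 h2
    have h4 : c * z < 1 := by
      have := mul_lt_mul_of_pos_left h3 hc0
      rwa [mul_inv_cancel₀ hc0.ne'] at this
    have h5 : c⁻¹ < 1 := inv_lt_one_of_one_lt₀ hc
    exact mul_pos (by linarith) (by linarith)

/-- Sign analysis for the product of two elements. -/
theorem sign_analysis {c t s : ℝ} (hc : 1 < c) (ht : t ≠ 0) (hs : s ≠ 0)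
    (h : Real.log c < abs (abs (Real.log s) - abs (Real.log t))) :
    0 < (1 - c * (t * s)) * (c - t * s) ∧ 0 < (s + c * t) * (t + c * s) := by
  have hc0 : 0 < c := by linarith
  rw [← Real.log_abs s, ← Real.log_abs t] at h
  have ht' : 0 < |t| := abs_pos.2 ht
  have hs' : 0 < |s| := abs_pos.2 hs
  have l1 : Real.log c < |Real.log (|t| * |s|)| := by
    rw [Real.log_mul ht'.ne' hs'.ne']
    refine h.trans_le ?_
    have := abs_abs_sub_abs_le_abs_sub (Real.log |s|) (-Real.log |t|)
    rw [abs_neg] at this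
    refine this.trans (le_of_eq ?_)
    congr 1
    ring
  have l2 : Real.log c < |Real.log (|s| / |t|)| := by
    rw [Real.log_div hs'.ne' ht'.ne']
    exact h.trans_le (abs_abs_sub_abs_le_abs_sub _ _)
  rcases lt_or_gt_of_ne (mul_ne_zero ht hs) with h0 | h0
  · constructor
    · apply mul_pos <;> nlinarith
    · have h1 : |t| * |s| = -(t * s) := by rw [← abs_mul, abs_of_neg h0]
      have h2 := pos_of_log hc (div_pos hs' ht') l2
      have h3 : |s| / |t| = -(s / t) := by
        rw [← abs_div, abs_of_neg]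
        rw [div_neg_iff]
        rcases mul_neg_iff.1 h0 with ⟨a, b⟩ | ⟨a, b⟩
        · right
          exact ⟨b, a⟩
        · left
          exact ⟨b, a⟩
      rw [h3] at h2
      have h4 : (s + c * t) * (t + c * s) = t ^ 2 * ((1 - c * -(s / t)) * (c - -(s / t))) := by
        field_simp
        ring
      rw [h4]
      positivity
  · constructor
    · have h1 : |t| * |s| = t * s := by rw [← abs_mul, abs_of_pos h0]
      rw [h1] at l1
      exact pos_of_log hc h0 l1
    · have h4 : (s + c * t) * (t + c * s) = (1 + c ^ 2) * (t * s) + c * s ^ 2 + c * t ^ 2 := by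
        ring
      rw [h4]
      positivity

section

variable {L : ℝ → ℝ → ℝ → ℝ → Prop} (hL : LG L)
include hL

theorem LG.good {c d p q e P Q E : ℝ} (hc : 1 < c) (hd : 0 < d) (h1 : p ^ 2 + q ^ 2 = 1)
    (h2 : e ^ 2 = 1) (h3 : L p (-(e * q * c)) q (e * p * c)) (k1 : P ^ 2 + Q ^ 2 = 1)
    (k2 : E ^ 2 = 1) (k3 : L P (-(E * Q * d)) Q (E * P * d)) (hp : p ≠ 0) (hq : q ≠ 0)
    (hP : P ≠ 0) (hQ : Q ≠ 0)
    (h : Real.log c < abs (abs (Real.log (Q / P)) - abs (Real.log (q / p)))) :
    0 < (1 - c * (q / p * (e * (Q / P)))) * (c - q / p * (e * (Q / P))) ∧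
      Sim L (c * (1 - c * (q / p * (e * (Q / P)))) / (c - q / p * (e * (Q / P)))) := by
  have he : e ≠ 0 := by
    rintro rfl
    norm_num at h2
  have hE : E ≠ 0 := by
    rintro rfl
    norm_num at k2
  have he1 : |e| = 1 := by
    rcases sq_eq_one_iff.1 h2 with h | h <;> rw [h] <;> norm_num
  have hE1 : |E| = 1 := by
    rcases sq_eq_one_iff.1 k2 with h | h <;> rw [h] <;> norm_num
  have hc0 : 0 < c := by linarith
  set t := q / p with ht
  set s := e * (Q / P) with hs
  have ht0 : t ≠ 0 := div_ne_zero hq hp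
  have hs0 : s ≠ 0 := mul_ne_zero he (div_ne_zero hQ hP)
  have hsabs : Real.log (Q / P) = Real.log s := by
    rw [← Real.log_abs, ← Real.log_abs s, hs, abs_mul, he1, one_mul]
  rw [hsabs] at h
  obtain ⟨g1, g2⟩ := sign_analysis hc ht0 hs0 h
  refine ⟨g1, ?_⟩
  have hqt : q = t * p := by rw [ht]; field_simp
  have hQs : Q = e * s * P := by
    rw [hs]
    field_simp
    linear_combination -h2
  have key := hL.mul h3 k3
  have hdet := hL.det key
  have eA : p * P + -(e * q * c) * Q = p * P * (1 - c * (t * s)) := by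
    rw [hQs, hqt]
    linear_combination -(t * p * c * s * P) * h2
  have eB : p * -(E * Q * d) + -(e * q * c) * (E * P * d) = -(E * d * e * p * P * (s + c * t)) := by
    rw [hQs, hqt]
    ring
  have eC : q * P + e * p * c * Q = p * P * (t + c * s) := by
    rw [hQs, hqt]
    linear_combination (p * P * c * s) * h2
  have eD : q * -(E * Q * d) + e * p * c * (E * P * d) = E * d * e * p * P * (c - t * s) := by
    rw [hQs, hqt]
    ring
  have edet : (p * P * (1 - c * (t * s))) * (E * d * e * p * P * (c - t * s)) -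
      (-(E * d * e * p * P * (s + c * t))) * (p * P * (t + c * s)) = e * c * (E * d) := by
    rw [← eA, ← eB, ← eC, ← eD]
    linear_combination (e * c * E * d) * (P ^ 2 + Q ^ 2) * h1 + (e * c * E * d) * k1
  rw [eA, eB, eC, eD] at key
  have hsgn : (p * P * (1 - c * (t * s))) * (-(E * d * e * p * P * (s + c * t))) *
      (p * P * (t + c * s)) * (E * d * e * p * P * (c - t * s)) < 0 := by
    have : (p * P * (1 - c * (t * s))) * (-(E * d * e * p * P * (s + c * t))) *
      (p * P * (t + c * s)) * (E * d * e * p * P * (c - t * s)) =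
      -((E * d * e) ^ 2 * (p * P) ^ 4 * ((1 - c * (t * s)) * (c - t * s)) *
        ((s + c * t) * (t + c * s))) := by ring
    rw [this]
    have : 0 < (E * d * e) ^ 2 * (p * P) ^ 4 * ((1 - c * (t * s)) * (c - t * s)) *
        ((s + c * t) * (t + c * s)) := by positivity
    linarith
  have hsim := hL.coincidence key hsgn
  rw [edet] at hsim
  have hne : c - t * s ≠ 0 := by
    intro h0
    rw [h0, mul_zero] at g1
    exact lt_irrefl _ g1
  have hfrac : 0 < (1 - c * (t * s)) / (c - t * s) := by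
    have : (1 - c * (t * s)) / (c - t * s) =
        (1 - c * (t * s)) * (c - t * s) / (c - t * s) ^ 2 := by field_simp
    rw [this]
    positivity
  convert hsim using 1
  have e1 : p * P * (1 - c * (t * s)) / (E * d * e * p * P * (c - t * s)) =
      (1 - c * (t * s)) / (c - t * s) * (1 / (E * d * e)) := by field_simp
  rw [e1, abs_mul, abs_of_pos hfrac, abs_mul (e * c), abs_mul e c, abs_mul E d, abs_div, abs_one,
    abs_mul (E * d), abs_mul E d, he1, hE1, abs_of_pos hc0, abs_of_pos hd]
  field_simp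

omit hL in
theorem Ioi_not_countable : ¬ (Ioi (0 : ℝ)).Countable := by
  intro h
  have h1 := h.dense_compl ℝ
  obtain ⟨x, hx1, hx2⟩ := h1.inter_open_nonempty (Ioi 0) isOpen_Ioi ⟨1, mem_Ioi.2 one_pos⟩
  exact hx2 hx1

omit hL in
theorem countable_of_fibers {G : Set ℝ} {R : Set ℝ} (hR : R.Countable) (g : ℝ → ℝ)
    (hg : ∀ d ∈ G, g d ∈ R) (hf : ∀ r ∈ R, {d : ℝ | d ∈ G ∧ g d = r}.Countable) :
    G.Countable := by
  refine (hR.biUnion hf).mono ?_
  intro d hd
  simp only [mem_iUnion]
  exact ⟨g d, hg d hd, hd, rfl⟩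

/-- Main theorem on the linear parts: if only countably many `diag (1, r)` belong to the group then
uncountably many homotheties do. -/
theorem LG.uncountable_scalars (hC : {r : ℝ | 0 < r ∧ L 1 0 0 r}.Countable) :
    ¬ (Sc L).Countable := by
  intro hS
  have hR := hL.sim_countable hS
  choose! p q e hpq he hLc hLi using hL.rig'
  -- fibres
  have fib : ∀ P Q E : ℝ, {c : ℝ | 0 < c ∧ p c = P ∧ q c = Q ∧ e c = E}.Countable := by
    intro P Q E
    rcases {c : ℝ | 0 < c ∧ p c = P ∧ q c = Q ∧ e c = E}.eq_empty_or_nonempty with h0 | h0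
    · rw [h0]
      exact countable_empty
    · obtain ⟨c₀, hc₀, hp₀, hq₀, he₀⟩ := h0
      refine MapsTo.countable_of_injOn (f := fun c => c / c₀) (t := {r : ℝ | 0 < r ∧ L 1 0 0 r})
        ?_ ?_ hC
      · rintro c ⟨hc, hp, hq, hee⟩
        refine ⟨div_pos hc hc₀, ?_⟩
        have h1 := hL.mul (hLi c₀ hc₀) (hLc c hc)
        have h2 := hpq c hc
        have h3 := he c hc
        rw [hp₀, hq₀, he₀, hp, hq, hee] at h1
        rw [hp, hq] at h2
        rw [hee] at h3
        convert h1 using 1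
        · linear_combination -h2
        · ring
        · ring
        · field_simp
          linear_combination -h2 - (P ^ 2 + Q ^ 2) * h3
      · intro a _ b _ hab
        simpa [div_left_inj' hc₀.ne'] using hab
  have fibp : ∀ v : ℝ, {c : ℝ | 0 < c ∧ p c = v}.Countable := by
    intro v
    refine (((fib v (√(1 - v ^ 2)) 1).union (fib v (√(1 - v ^ 2)) (-1))).union
      ((fib v (-√(1 - v ^ 2)) 1).union (fib v (-√(1 - v ^ 2)) (-1)))).mono ?_
    rintro c ⟨hc, hp⟩
    have h1 := hpq c hc
    have h2 := sq_eq_one_iff.1 (he c hc)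
    have h3 : q c ^ 2 = (√(1 - v ^ 2)) ^ 2 := by
      rw [Real.sq_sqrt]
      · rw [← hp]
        linarith
      · rw [← hp]
        nlinarith [sq_nonneg (q c)]
    rcases sq_eq_sq_iff_eq_or_eq_neg.1 h3 with h4 | h4 <;> rcases h2 with h5 | h5
    · exact Or.inl (Or.inl ⟨hc, hp, h4, h5⟩)
    · exact Or.inl (Or.inr ⟨hc, hp, h4, h5⟩)
    · exact Or.inr (Or.inl ⟨hc, hp, h4, h5⟩)
    · exact Or.inr (Or.inr ⟨hc, hp, h4, h5⟩)
  have fibl : ∀ l : ℝ, {c : ℝ | (0 < c ∧ p c ≠ 0 ∧ q c ≠ 0) ∧
      abs (Real.log (q c / p c)) = l}.Countable := by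
    intro l
    have aux : ∀ c k : ℝ, 0 < c → p c ≠ 0 → q c ≠ 0 → Real.log (q c / p c) = k →
        p c = √(1 / (1 + Real.exp (2 * k))) ∨ p c = -√(1 / (1 + Real.exp (2 * k))) := by
      intro c k hc hp hq hk
      rw [← sq_eq_sq_iff_eq_or_eq_neg, Real.sq_sqrt (by positivity)]
      have h1 : |q c / p c| = Real.exp k := by
        rw [← hk, ← Real.log_abs, Real.exp_log]
        exact abs_pos.2 (div_ne_zero hq hp)
      have h2 : q c ^ 2 / p c ^ 2 = Real.exp (2 * k) := by
        rw [two_mul, Real.exp_add, ← h1, ← sq, sq_abs, div_pow]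
      rw [← h2]
      have h3 := hpq c hc
      field_simp
      linear_combination h3
    refine (((fibp (√(1 / (1 + Real.exp (2 * l))))).union
      (fibp (-√(1 / (1 + Real.exp (2 * l)))))).union
      ((fibp (√(1 / (1 + Real.exp (2 * (-l)))))).union
      (fibp (-√(1 / (1 + Real.exp (2 * (-l)))))))).mono ?_
    rintro c ⟨⟨hc, hp, hq⟩, hl⟩
    rcases eq_or_eq_neg_of_abs_eq hl with h1 | h1
    · rcases aux c l hc hp hq h1 with h2 | h2
      · exact Or.inl (Or.inl ⟨hc, h2⟩)
      · exact Or.inl (Or.inr ⟨hc, h2⟩)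
    · rcases aux c (-l) hc hp hq h1 with h2 | h2
      · exact Or.inr (Or.inl ⟨hc, h2⟩)
      · exact Or.inr (Or.inr ⟨hc, h2⟩)
  -- the exceptional set
  have hN : {c : ℝ | 0 < c ∧ (p c = 0 ∨ q c = 0)}.Countable := by
    refine ((fibp 0).union ((fibp 1).union (fibp (-1)))).mono ?_
    rintro c ⟨hc, h | h⟩
    · exact Or.inl ⟨hc, h⟩
    · have h1 := hpq c hc
      rw [h] at h1
      have h2 : p c ^ 2 = 1 := by linarith
      rcases sq_eq_one_iff.1 h2 with h3 | h3
      · exact Or.inr (Or.inl ⟨hc, h3⟩)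
      · exact Or.inr (Or.inr ⟨hc, h3⟩)
  set D : Set ℝ := {c : ℝ | 0 < c ∧ p c ≠ 0 ∧ q c ≠ 0} with hD
  have hDun : ¬ D.Countable := by
    intro h
    refine Ioi_not_countable ((h.union hN).mono ?_)
    intro c hc
    by_cases h1 : p c = 0
    · exact Or.inr ⟨hc, Or.inl h1⟩
    · by_cases h2 : q c = 0
      · exact Or.inr ⟨hc, Or.inr h2⟩
      · exact Or.inl ⟨hc, h1, h2⟩
  let lam : ℝ → ℝ := fun c => abs (Real.log (q c / p c))
  -- selection of `c`
  obtain ⟨c, hcD, hc1, hcG⟩ : ∃ c : ℝ, c ∈ D ∧ 1 < c ∧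
      ¬ {d : ℝ | d ∈ D ∧ Real.log c < abs (lam d - lam c)}.Countable := by
    by_contra hcon
    push Not at hcon
    have hseq : ∀ n : ℕ, ∃ c : ℝ, c ∈ D ∧ 1 < c ∧ c < 1 + 1 / ((n : ℝ) + 1) := by
      intro n
      have h1 := hN.dense_compl ℝ
      obtain ⟨x, hx1, hx2⟩ := h1.inter_open_nonempty (Ioo 1 (1 + 1 / ((n : ℝ) + 1))) isOpen_Ioo
        (nonempty_Ioo.2 (by
          have : 0 < 1 / ((n : ℝ) + 1) := by positivity
          linarith))
      have hx0 : 0 < x := by linarith [hx1.1]
      refine ⟨x, ⟨hx0, fun h => hx2 ⟨hx0, Or.inl h⟩, fun h => hx2 ⟨hx0, Or.inr h⟩⟩, hx1.1, hx1.2⟩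
    choose cs hcsD hcs1 hcs2 using hseq
    have hU : (⋃ n, {d : ℝ | d ∈ D ∧ Real.log (cs n) < abs (lam d - lam (cs n))}).Countable :=
      countable_iUnion fun n => hcon (cs n) (hcsD n) (hcs1 n)
    set U := ⋃ n, {d : ℝ | d ∈ D ∧ Real.log (cs n) < abs (lam d - lam (cs n))} with hUdef
    have hrest : (D \ U).Countable := by
      rcases (D \ U).eq_empty_or_nonempty with h0 | ⟨d₀, hd₀⟩
      · rw [h0]
        exact countable_empty
      · refine (fibl (lam d₀)).mono ?_
        intro d hd
        refine ⟨hd.1, ?_⟩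
        have hb : ∀ x ∈ D \ U, ∀ n, abs (lam x - lam (cs n)) ≤ Real.log (cs n) := by
          intro x hx n
          by_contra h
          push Not at h
          exact hx.2 (mem_iUnion.2 ⟨n, hx.1, h⟩)
        change lam d = lam d₀
        by_contra hne
        have hpos : 0 < abs (lam d - lam d₀) := abs_pos.2 (sub_ne_zero.2 hne)
        obtain ⟨n, hn⟩ := exists_nat_one_div_lt (half_pos hpos)
        have h1 := hb d hd n
        have h2 := hb d₀ hd₀ n
        have h3 : Real.log (cs n) ≤ cs n - 1 :=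
          Real.log_le_sub_one_of_pos (by linarith [hcs1 n])
        have h4 := hcs2 n
        have h5 : abs (lam d - lam d₀) ≤ abs (lam d - lam (cs n)) + abs (lam d₀ - lam (cs n)) := by
          rw [abs_sub_comm (lam d₀)]
          exact abs_sub_le _ _ _
        linarith
    refine hDun ((hU.union hrest).mono ?_)
    intro d hd
    by_cases h : d ∈ U
    · exact Or.inl h
    · exact Or.inr ⟨hd, h⟩
  -- counting
  obtain ⟨hc0, hcp, hcq⟩ := hcD
  have hgood : ∀ d : ℝ, d ∈ {d : ℝ | d ∈ D ∧ Real.log c < abs (lam d - lam c)} →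
      0 < (1 - c * (q c / p c * (e c * (q d / p d)))) * (c - q c / p c * (e c * (q d / p d))) ∧
      Sim L (c * (1 - c * (q c / p c * (e c * (q d / p d)))) /
        (c - q c / p c * (e c * (q d / p d)))) := by
    rintro d ⟨⟨hd0, hdp, hdq⟩, hd⟩
    exact hL.good hc1 hd0 (hpq c hc0) (he c hc0) (hLc c hc0) (hpq d hd0) (he d hd0) (hLc d hd0)
      hcp hcq hdp hdq hd
  refine hcG (countable_of_fibers hR (fun d => c * (1 - c * (q c / p c * (e c * (q d / p d)))) /
        (c - q c / p c * (e c * (q d / p d)))) ?_ ?_)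
  · intro d hd
    obtain ⟨h1, h2⟩ := hgood d hd
    refine ⟨?_, h2⟩
    have hne : c - q c / p c * (e c * (q d / p d)) ≠ 0 := by
      intro h0
      rw [h0, mul_zero] at h1
      exact lt_irrefl _ h1
    have : c * (1 - c * (q c / p c * (e c * (q d / p d)))) /
        (c - q c / p c * (e c * (q d / p d))) =
        c * ((1 - c * (q c / p c * (e c * (q d / p d)))) *
        (c - q c / p c * (e c * (q d / p d)))) /
        (c - q c / p c * (e c * (q d / p d))) ^ 2 := by
      field_simp
    change 0 < c * (1 - c * (q c / p c * (e c * (q d / p d)))) /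
        (c - q c / p c * (e c * (q d / p d)))
    rw [this]
    positivity
  · intro r hr
    rcases {d : ℝ | d ∈ {d : ℝ | d ∈ D ∧ Real.log c < abs (lam d - lam c)} ∧
        c * (1 - c * (q c / p c * (e c * (q d / p d)))) /
        (c - q c / p c * (e c * (q d / p d))) = r}.eq_empty_or_nonempty with h0 | ⟨d₀, hd₀, hr₀⟩
    · rw [h0]
      exact countable_empty
    · refine (fibl (lam d₀)).mono ?_
      rintro d ⟨hd, hdr⟩
      refine ⟨hd.1, ?_⟩
      have g1 := (hgood d hd).1
      have g2 := (hgood d₀ hd₀).1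
      have hdr' := hdr.trans hr₀.symm
      set κ := q c / p c * (e c * (q d / p d)) with hκ
      set κ₀ := q c / p c * (e c * (q d₀ / p d₀)) with hκ₀
      have hne : c - κ ≠ 0 := by
        intro h0
        rw [h0, mul_zero] at g1
        exact lt_irrefl _ g1
      have hne₀ : c - κ₀ ≠ 0 := by
        intro h0
        rw [h0, mul_zero] at g2
        exact lt_irrefl _ g2
      have hdr2 : c * (1 - c * κ) / (c - κ) = c * (1 - c * κ₀) / (c - κ₀) := hdr'
      rw [div_eq_div_iff hne hne₀] at hdr2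
      have h1 : (κ₀ - κ) * (c * (c ^ 2 - 1)) = 0 := by linear_combination hdr2
      have h2 : c * (c ^ 2 - 1) ≠ 0 := by
        have : 0 < c ^ 2 - 1 := by nlinarith
        positivity
      have h3 : κ₀ - κ = 0 := (mul_eq_zero.1 h1).resolve_right h2
      have h4 : κ = κ₀ := by linarith
      have hece : e c ≠ 0 := by
        intro h0
        have := he c hc0
        rw [h0] at this
        norm_num at this
      have h5 : q d / p d = q d₀ / p d₀ := by
        rw [hκ, hκ₀] at h4
        exact mul_left_cancel₀ hece (mul_left_cancel₀ (div_ne_zero hcq hcp) h4)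
      change abs (Real.log (q d / p d)) = abs (Real.log (q d₀ / p d₀))
      rw [h5]

end

end Pool.Agent.Lib.MP_1755e3_an.Full
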